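import Pool.Agent.Lib_helper10.RY.Geom

/-!
Reay's conjecture for few parts, and Kalai's inequality.
-/

set_option linter.unusedSectionVars false

namespace Pool.Agent.RY

open scoped BigOperators Topology
open Module Filter Pool.Agent

section reay

variable {d : ℕ}

theorem reay {X : Finset (Fin d → ℝ)} (hX : GP X) {r k : ℕ} (hr : 1 ≤ r) (hk : k ≤ d)
    (hrk : r ≤ 4 ∨ k ≠ 1) (hn : (r - 1) * (d + 1) + k + 1 + (r - 5) ≤ X.card) :
    (k : ℤ) ≤ KL.dimT r X := by
  have hG := gen_of_GP hX
  have hcard : (X.map (lf d)).card = X.card := Finset.card_map _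
  obtain ⟨F, hF, _, hF1, _, hF2⟩ := bound (r := r) hG (by omega) (by rw [finrank_lift]; omega)
    (by rw [finrank_lift, hcard]; omega)
  have h1 := dimT_ge_state hr hF hF1
  rw [finrank_lift, hcard] at hF2
  have h2 : k + 1 ≤ finrank ℝ (LL F) := by
    rcases hF2 with h | ⟨h, h'⟩ | h
    · omega
    · rcases hrk with h3 | h3 <;> omega
    · omega
  have h3 : ((k + 1 : ℕ) : ℤ) ≤ (finrank ℝ (LL F) : ℤ) := by exact_mod_cast h2
  push_cast at h3
  linarith

theorem tverberg {X : Finset (Fin d → ℝ)} (hX : GP X) {r : ℕ} (hr : 1 ≤ r)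
    (hn : (r - 1) * (d + 1) + 1 ≤ X.card) : 0 ≤ KL.dimT r X := by
  have hG := gen_of_GP hX
  have hcard : (X.map (lf d)).card = X.card := Finset.card_map _
  obtain ⟨F, hF, _, hF1, _, _⟩ := bound (r := r) hG (by omega) (by rw [finrank_lift]; omega)
    (by rw [finrank_lift, hcard]; omega)
  have h1 := dimT_ge_state hr hF hF1
  have h3 : ((1 : ℕ) : ℤ) ≤ (finrank ℝ (LL F) : ℤ) := by exact_mod_cast hF1
  push_cast at h3
  linarith

/-- five parts, `4(d+1)+2` points -/
theorem five {X : Finset (Fin d → ℝ)} (hX : GP X) (hd : 1 ≤ d) (hn : X.card = 4 * (d + 1) + 2) :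
    1 ≤ KL.dimT 5 X ∨ 0 ≤ KL.dimT 6 X := by
  classical
  have hG := gen_of_GP hX
  have hcard : (X.map (lf d)).card = X.card := Finset.card_map _
  obtain ⟨F, hF, hFc, hF1, hmax, _⟩ := bound (r := 5) hG (by omega) (by rw [finrank_lift]; omega)
    (by rw [finrank_lift, hcard]; omega)
  by_cases hk2 : 2 ≤ finrank ℝ (LL F)
  · left
    have h1 := dimT_ge_state (by omega) hF hF1
    have h3 : ((2 : ℕ) : ℤ) ≤ (finrank ℝ (LL F) : ℤ) := by exact_mod_cast hk2
    push_cast at h3
    linarith
  · right
    have hk : finrank ℝ (LL F) = 1 := by omega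
    have hcount := count hG (by omega) hF (fun j => (hFc j).trans (Nat.le_succ _))
    have hnu : nu F = 0 := by
      unfold nu
      rw [Finset.card_eq_zero, Finset.filter_eq_empty_iff]
      intro j _
      exact not_lt.mpr (hFc j)
    rw [finrank_lift, hcard, hnu, hk, hn] at hcount
    have hP : (pool (X.map (lf d)) F).card = finrank ℝ (MM (UU F) ⊤) + 1 := by omega
    have he5 : finrank ℝ (MM (UU F) ⊤) < (pool (X.map (lf d)) F).card := by omega
    obtain ⟨z, hz⟩ := hF.pos
    have hsnd : ∀ x ∈ X.map (lf d), x.2 = 1 := by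
      intro x hx
      obtain ⟨y, _, rfl⟩ := Finset.mem_map.mp hx
      rfl
    have hzL : z ∈ LL F := (Submodule.mem_iInf _).mpr fun j => (hz j).mem_span
    have hFne : (F 0).Nonempty := by
      rw [Finset.nonempty_iff_ne_empty]
      intro h
      have h1 := card_class hF 0
      rw [h, Finset.card_empty, hk] at h1
      omega
    have hzpos : 0 < z.2 := by
      obtain ⟨α, hα, hαz⟩ := hz 0
      rw [← hαz, Prod.snd_sum]
      apply Finset.sum_pos _ hFne
      intro x hx
      rw [Prod.smul_snd, hsnd x (hF.sub 0 hx), smul_eq_mul, mul_one]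
      exact hα x hx
    have hz0 : z ≠ 0 := by
      intro h
      rw [h] at hzpos
      exact lt_irrefl _ hzpos
    -- every element of `LL F` is a multiple of `z`
    have hLz : ∀ v ∈ LL F, ∃ t : ℝ, v = t • z := by
      have h1 : Submodule.span ℝ {z} = LL F := by
        apply Submodule.eq_of_le_of_finrank_eq
        · rw [Submodule.span_singleton_le_iff_mem]
          exact hzL
        · rw [finrank_span_singleton hz0, hk]
      intro v hv
      rw [← h1, Submodule.mem_span_singleton] at hv
      obtain ⟨t, rfl⟩ := hv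
      exact ⟨t, rfl⟩
    set P := pool (X.map (lf d)) F with hPdef
    have hPX : ∀ x ∈ P, x ∈ X.map (lf d) := fun x hx => (mem_pool.mp hx).1
    have hzP : -z ∉ P := by
      intro h
      have := hsnd _ (hPX _ h)
      rw [Prod.snd_neg] at this
      linarith
    obtain ⟨w, hw, hs, hw0⟩ := sep (insert (-z) P) (by
      intro lam
      by_contra hcon
      push Not at hcon
      have h1 : 0 < lam (-z) := hcon _ (Finset.mem_insert_self _ _)
      have h2 : ∀ x ∈ P, 0 < lam x := fun x hx => hcon x (Finset.mem_insert_of_mem hx)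
      rw [map_neg] at h1
      set t := - lam z / z.2 with ht
      have htpos : 0 < t := div_pos h1 hzpos
      let mu : Dual ℝ ((Fin d → ℝ) × ℝ) := lam + t • LinearMap.snd ℝ (Fin d → ℝ) ℝ
      have hmu : ∀ x, mu x = lam x + t * x.2 := fun x => rfl
      have hmuP : ∀ x ∈ P, 0 < mu x := by
        intro x hx
        rw [hmu, hsnd x (hPX x hx), mul_one]
        exact add_pos (h2 x hx) htpos
      have hmuz : mu z = 0 := by
        rw [hmu, ht]
        field_simp
        ring
      have hne : mu ≠ 0 := by
        intro h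
        obtain ⟨x, hx⟩ : P.Nonempty := Finset.card_pos.mp (by omega)
        have := hmuP x hx
        rw [h] at this
        exact lt_irrefl _ this
      exact no_half hG (by omega) hF he5 hmax (Finset.Subset.refl _) hP mu hne (by
        intro v hv
        obtain ⟨s, rfl⟩ := hLz v hv
        rw [map_smul, hmuz, smul_zero]) (fun x hx => (hmuP x hx).le))
    rw [Finset.sum_insert hzP] at hs hw0
    have hwP : ∀ x ∈ P, 0 ≤ w x := fun x hx => hw x (Finset.mem_insert_of_mem hx)
    have hsnd0 : ∑ x ∈ P, w x = w (-z) * z.2 := by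
      have h1 := congrArg Prod.snd hw0
      rw [Prod.snd_add, Prod.snd_sum, Prod.smul_snd, Prod.snd_neg, Prod.snd_zero] at h1
      have h2 : ∑ x ∈ P, (w x • x).2 = ∑ x ∈ P, w x :=
        Finset.sum_congr rfl fun x hx => by
          rw [Prod.smul_snd, hsnd x (hPX x hx), smul_eq_mul, mul_one]
      rw [h2, smul_eq_mul] at h1
      linarith
    have hw1 : 0 < w (-z) := by
      have h1 := hw _ (Finset.mem_insert_self (-z) P)
      rcases eq_or_lt_of_le h1 with h2 | h2
      · exfalso
        rw [← h2, zero_mul] at hsnd0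
        rw [← h2, hsnd0] at hs
        norm_num at hs
      · exact h2
    let B := P.filter (fun x => 0 < w x)
    have hBrel : Rel B z := by
      refine ⟨fun x => (w (-z))⁻¹ * w x, fun x hx => mul_pos (inv_pos.mpr hw1)
        (Finset.mem_filter.mp hx).2, ?_⟩
      have h1 : ∑ x ∈ B, ((w (-z))⁻¹ * w x) • x = ∑ x ∈ P, ((w (-z))⁻¹ * w x) • x := by
        apply Finset.sum_subset (Finset.filter_subset _ _)
        intro x hx hx'
        have h2 : ¬ 0 < w x := fun h => hx' (Finset.mem_filter.mpr ⟨hx, h⟩)
        rw [le_antisymm (not_lt.mp h2) (hwP x hx), mul_zero, zero_smul]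
      rw [h1]
      simp only [mul_smul]
      rw [← Finset.smul_sum]
      have h2 : ∑ x ∈ P, w x • x = w (-z) • z := by
        rw [smul_neg] at hw0
        exact (neg_add_eq_zero.mp hw0).symm
      rw [h2, smul_smul, inv_mul_cancel₀ hw1.ne', one_smul]
    let F6 : Fin 6 → Finset ((Fin d → ℝ) × ℝ) := Fin.snoc F B
    have hF6a : ∀ j : Fin 5, F6 j.castSucc = F j := fun j => Fin.snoc_castSucc _ _ j
    have hF6b : F6 (Fin.last 5) = B := Fin.snoc_last _ _
    have hrel6 : ∀ j, Rel (F6 j) z := by
      intro j
      refine Fin.lastCases ?_ (fun i => ?_) j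
      · rw [hF6b]; exact hBrel
      · rw [hF6a]; exact hz i
    have h6 := dimT_ge (r := 6) (by omega) X F6 (by
      intro j
      refine Fin.lastCases ?_ (fun i => ?_) j
      · rw [hF6b]; exact fun x hx => hPX x (Finset.mem_filter.mp hx).1
      · rw [hF6a]; exact hF.sub i) (by
      have hd1 : ∀ i : Fin 5, Disjoint (F i) B := by
        intro i
        rw [Finset.disjoint_left]
        intro x hx hx'
        exact (mem_pool.mp (Finset.mem_filter.mp hx').1).2 i hx
      intro i j
      refine Fin.lastCases ?_ (fun i' => ?_) i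
      · refine Fin.lastCases ?_ (fun j' => ?_) j
        · intro h; exact absurd rfl h
        · intro _; rw [hF6b, hF6a]; exact (hd1 j').symm
      · refine Fin.lastCases ?_ (fun j' => ?_) j
        · intro _; rw [hF6b, hF6a]; exact hd1 i'
        · intro h
          rw [hF6a, hF6a]
          exact hF.disj i' j' (fun h' => h (by rw [h']))) z hrel6 (Submodule.span ℝ {z}) (by
      intro j
      rw [Submodule.span_singleton_le_iff_mem]
      exact (hrel6 j).mem_span) (by rw [finrank_span_singleton hz0])
    rw [finrank_span_singleton hz0] at h6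
    simpa using h6

lemma dimT_ge_neg_one {r : ℕ} (hr : 1 ≤ r) (X : Finset (Fin d → ℝ)) : -1 ≤ KL.dimT r X :=
  (KL.neg_one_le_adim _).trans (KL.le_dimT hr X (fun _ => ⟨0, hr⟩))

lemma sum_of_lower {X : Finset (Fin d → ℝ)} (g : ℕ → ℕ) (N : ℕ)
    (hg : ∀ r, 1 ≤ r → r ≤ N → (g r : ℤ) ≤ KL.dimT r X + 1)
    (hz : ∀ r, X.card < r → g r = 0) (hs : X.card ≤ ∑ r ∈ Finset.Icc 1 N, g r) :
    0 ≤ ∑ r ∈ Finset.Icc 1 X.card, KL.dimT r X := by
  classical
  have h1 : ∑ r ∈ Finset.Icc 1 N, g r ≤ ∑ r ∈ Finset.Icc 1 X.card, (if r ≤ N then g r else 0) := by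
    rw [← Finset.sum_filter]
    apply Finset.sum_le_sum_of_ne_zero
    intro r hr hne
    obtain ⟨h2, h3⟩ := Finset.mem_Icc.mp hr
    rw [Finset.mem_filter, Finset.mem_Icc]
    refine ⟨⟨h2, ?_⟩, h3⟩
    by_contra h
    exact hne (hz r (not_le.mp h))
  have h2 : ∑ r ∈ Finset.Icc 1 X.card, ((if r ≤ N then g r else 0 : ℕ) : ℤ)
      ≤ ∑ r ∈ Finset.Icc 1 X.card, (KL.dimT r X + 1) := by
    apply Finset.sum_le_sum
    intro r hr
    obtain ⟨h3, _⟩ := Finset.mem_Icc.mp hr
    split_ifs with h
    · exact hg r h3 h
    · have := dimT_ge_neg_one h3 X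
      push_cast
      linarith
  have h3 : (X.card : ℤ) ≤ ∑ r ∈ Finset.Icc 1 X.card, ((if r ≤ N then g r else 0 : ℕ) : ℤ) := by
    rw [← Nat.cast_sum]
    exact_mod_cast hs.trans h1
  rw [Finset.sum_add_distrib, Finset.sum_const, Nat.card_Icc] at h2
  simp only [add_tsub_cancel_right, nsmul_eq_mul, mul_one] at h2
  linarith

/-- Kalai's inequality for at most `5(d+1)` points in general position -/
theorem kalai_gp {X : Finset (Fin d → ℝ)} (hX : GP X) (hn : X.card ≤ 5 * (d + 1)) :
    0 ≤ ∑ r ∈ Finset.Icc 1 X.card, KL.dimT r X := by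
  classical
  by_cases hsp : X.card = 4 * (d + 1) + 2 ∧ 1 ≤ d
  · obtain ⟨hc, hd⟩ := hsp
    rcases five hX hd hc with h5 | h6
    · refine sum_of_lower (fun r => if r ≤ 4 then d + 1 else if r = 5 then 2 else 0) 5 ?_ ?_ ?_
      · intro r hr1 hr2
        by_cases h4 : r ≤ 4
        · simp only [h4, if_true]
          have := reay hX hr1 (le_refl d) (Or.inl h4) (by
            have : (r - 1) * (d + 1) ≤ 3 * (d + 1) := Nat.mul_le_mul_right _ (by omega)
            omega)
          push_cast
          linarith
        · have : r = 5 := by omega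
          subst this
          simp only [show ¬ (5 ≤ 4) by omega, if_false, if_true]
          push_cast
          linarith
      · intro r hr
        have h1 : ¬ r ≤ 4 := by omega
        have h2 : ¬ r = 5 := by omega
        simp [h1, h2]
      · rw [hc]
        simp [Finset.sum_Icc_succ_top]
        omega
    · refine sum_of_lower (fun r => if r ≤ 4 then d + 1 else if r ≤ 6 then 1 else 0) 6 ?_ ?_ ?_
      · intro r hr1 hr2
        by_cases h4 : r ≤ 4
        · simp only [h4, if_true]
          have := reay hX hr1 (le_refl d) (Or.inl h4) (by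
            have : (r - 1) * (d + 1) ≤ 3 * (d + 1) := Nat.mul_le_mul_right _ (by omega)
            omega)
          push_cast
          linarith
        · by_cases h5 : r = 5
          · subst h5
            simp only [show ¬ (5 ≤ 4) by omega, show (5 ≤ 6) by omega, if_false, if_true]
            have := tverberg hX (r := 5) (by omega) (by omega)
            push_cast
            linarith
          · have : r = 6 := by omega
            subst this
            simp only [show ¬ (6 ≤ 4) by omega, show (6 ≤ 6) by omega, if_false, if_true]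
            push_cast
            linarith
      · intro r hr
        have h1 : ¬ r ≤ 4 := by omega
        have h2 : ¬ r ≤ 6 := by omega
        simp [h1, h2]
      · rw [hc]
        simp [Finset.sum_Icc_succ_top]
        omega
  · refine sum_of_lower (fun r => min (d + 1) (X.card - (r - 1) * (d + 1))) 5 ?_ ?_ ?_
    · intro r hr1 hr2
      rcases Nat.eq_zero_or_pos (X.card - (r - 1) * (d + 1)) with h0 | h0
      · simp only [h0, Nat.min_zero, Nat.cast_zero]
        linarith [dimT_ge_neg_one hr1 X]
      · set m := min (d + 1) (X.card - (r - 1) * (d + 1)) with hm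
        have hmpos : 1 ≤ m := by omega
        have hm1 : m ≤ d + 1 := min_le_left _ _
        have hm2 : m ≤ X.card - (r - 1) * (d + 1) := min_le_right _ _
        by_cases hbad : r = 5 ∧ m = 2
        · -- then the cardinality is larger
          obtain ⟨h5, h2⟩ := hbad
          subst h5
          by_cases hd : d = 0
          · omega
          · by_cases hd1 : d = 1
            · subst hd1
              -- `X.card` is 10 or less, `m = 2` forces `X.card ≥ 10`
              exfalso
              omega
            · have hX2 : X.card = 4 * (d + 1) + 2 := by omega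
              exact absurd ⟨hX2, by omega⟩ hsp
        · have := reay hX (r := r) (k := m - 1) hr1 (by omega) (by
            by_cases h4 : r ≤ 4
            · exact Or.inl h4
            · right
              intro h
              exact hbad ⟨by omega, by omega⟩) (by omega)
          have h3 : ((m - 1 : ℕ) : ℤ) = (m : ℤ) - 1 := by
            rw [Nat.cast_sub hmpos]; simp
          rw [h3] at this
          linarith
    · intro r hr
      have h1 : r - 1 ≤ (r - 1) * (d + 1) := Nat.le_mul_of_pos_right _ (by omega)
      have h2 : X.card - (r - 1) * (d + 1) = 0 := by omega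
      simp [h2]
    · simp [Finset.sum_Icc_succ_top]
      omega

end reay

end Pool.Agent.RY
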