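import Pool.Agent.Lib_helper10.RY.Ext

/-!
The bound for the dimension of the intersection.
-/

set_option linter.unusedSectionVars false

namespace Pool.Agent.RY

open scoped BigOperators Topology
open Module Filter

lemma exists_maxi {α : Type*} (P : α → Prop) (f : α → ℕ) (N : ℕ) (hN : ∀ a, P a → f a ≤ N)
    (h : ∃ a, P a) : ∃ a, P a ∧ ∀ b, P b → f b ≤ f a := by
  classical
  have h1 : ∃ n, ∃ a, P a ∧ N - f a = n := by
    obtain ⟨a, ha⟩ := h
    exact ⟨_, a, ha, rfl⟩
  obtain ⟨a, ha, hfa⟩ := Nat.find_spec h1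
  refine ⟨a, ha, fun b hb => ?_⟩
  have h2 := Nat.find_min' h1 ⟨b, hb, rfl⟩
  have h3 := hN a ha
  have h4 := hN b hb
  omega

section fin

variable {V : Type*} [AddCommGroup V] [Module ℝ V] [FiniteDimensional ℝ V] {r : ℕ}

/-- the initial state -/
lemma init_state {X : Finset V} (hX : Gen X) (hr : 0 < r)
    (hn : (r - 1) * finrank ℝ V ≤ X.card) : St X (fun _ : Fin r => (∅ : Finset V)) := by
  classical
  refine ⟨fun _ => Finset.empty_subset _, fun _ _ _ => Finset.disjoint_empty_left _,
    ⟨0, fun _ => ⟨fun _ => 1, by simp, by simp⟩⟩, ?_⟩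
  set D := finrank ℝ V with hD
  -- colours
  let e : {x // x ∈ X} ≃ Fin X.card := X.equivFin
  let s : V → Fin r := fun x => if h : x ∈ X then
      (if h2 : (e ⟨x, h⟩ : ℕ) / D + 1 < r then ⟨(e ⟨x, h⟩ : ℕ) / D + 1, h2⟩ else ⟨0, hr⟩)
    else ⟨0, hr⟩
  refine ⟨s, ?_⟩
  set F : Fin r → Finset V := fun _ => ∅ with hF
  have hpool : pool X F = X := by
    ext x
    simp [mem_pool, hF]
  rw [hpool]
  set W := Submodule.span ℝ {v : MM (UU F) ⊤ | ∃ x ∈ X, io (UU F) ⊤ (s x) x = v} with hW
  -- classes are large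
  have hcls : ∀ j : Fin r, (j : ℕ) ≠ 0 → ∀ v, io (UU F) ⊤ j v ∈ W := by
    intro j hj v
    by_cases hD0 : D = 0
    · have : v = 0 := by
        have : Subsingleton V := Module.finrank_zero_iff.mp hD0
        exact Subsingleton.elim _ _
      rw [this, map_zero]
      exact Submodule.zero_mem _
    have hDpos : 0 < D := Nat.pos_of_ne_zero hD0
    have hjr := j.2
    have hjD : ((j : ℕ) - 1) * D + D ≤ X.card := by
      have h1 : (j : ℕ) - 1 + 1 ≤ r - 1 := by omega
      calc ((j : ℕ) - 1) * D + D = ((j : ℕ) - 1 + 1) * D := by ring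
        _ ≤ (r - 1) * D := Nat.mul_le_mul_right _ h1
        _ ≤ X.card := hn
    have hidx : ∀ i : Fin D, ((j : ℕ) - 1) * D + (i : ℕ) < X.card := by
      intro i
      have := i.2
      omega
    let g : Fin D → V := fun i =>
      ((e.symm ⟨((j : ℕ) - 1) * D + (i : ℕ), hidx i⟩ : {x // x ∈ X}) : V)
    have hg : Function.Injective g := by
      intro i i' h
      have h1 := Subtype.ext h
      have h2 := e.symm.injective h1
      have h3 := congrArg Fin.val h2
      simp only at h3
      exact Fin.ext (by omega)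
    let S : Finset V := (Finset.univ : Finset (Fin D)).map ⟨g, hg⟩
    have hSX : S ⊆ X := by
      intro x hx
      obtain ⟨i, _, rfl⟩ := Finset.mem_map.mp hx
      exact (e.symm _).2
    have hScard : S.card = D := by
      rw [Finset.card_map, Finset.card_univ, Fintype.card_fin]
    have hSs : ∀ x ∈ S, s x = j := by
      intro x hx
      obtain ⟨i, _, rfl⟩ := Finset.mem_map.mp hx
      simp only [Function.Embedding.coeFn_mk, g, s, Finset.coe_mem, dif_pos, Subtype.coe_eta,
        Equiv.apply_symm_apply]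
      have h1 : (((j : ℕ) - 1) * D + (i : ℕ)) / D = (j : ℕ) - 1 := by
        rw [mul_comm, Nat.mul_add_div hDpos, Nat.div_eq_of_lt i.2, add_zero]
      have h2 : (j : ℕ) - 1 + 1 = j := by omega
      simp only [h1, h2, hjr, dif_pos]
    have htop := hX.span_eq_top hSX (by rw [hScard])
    have hv : v ∈ Submodule.span ℝ (S : Set V) := by rw [htop]; trivial
    obtain ⟨b, rfl⟩ := mem_span_iff.mp hv
    rw [map_sum]
    refine Submodule.sum_mem _ fun x hx => ?_
    rw [map_smul]
    exact Submodule.smul_mem _ _ (Submodule.subset_span ⟨x, hSX hx, by rw [hSs x hx]⟩)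
  rw [eq_top_iff]
  intro v _
  obtain ⟨w, rfl⟩ := Submodule.mkQ_surjective _ v
  rw [← sum_io]
  refine Submodule.sum_mem _ fun j _ => ?_
  by_cases hj : (j : ℕ) = 0
  · have h1 : ∑ k, io (UU F) ⊤ k (w j) = 0 := by
      rw [sum_io_same, mk_eq_zero]
      exact ⟨w j, trivial, fun k => by simp⟩
    rw [← Finset.add_sum_erase _ _ (Finset.mem_univ j)] at h1
    rw [eq_neg_of_add_eq_zero_left h1]
    refine Submodule.neg_mem _ (Submodule.sum_mem _ fun k hk => hcls k ?_ _)
    intro h2
    exact (Finset.mem_erase.mp hk).1 (Fin.ext (by omega))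
  · exact hcls j hj _

/-- the first step -/
lemma kap_pos {X : Finset V} (hX : Gen X) (hr : 0 < r) (hD : 1 ≤ finrank ℝ V)
    (hn : (r - 1) * finrank ℝ V < X.card) {F : Fin r → Finset V} (hF : St X F)
    (hmax : ∀ F' : Fin r → Finset V, St X F' → finrank ℝ (LL F') ≤ finrank ℝ (LL F)) :
    1 ≤ finrank ℝ (LL F) := by
  classical
  by_contra hcon
  have h0 : finrank ℝ (LL F) = 0 := by omega
  set G : Fin r → Finset V := fun _ => (∅ : Finset V) with hG
  have hG' : St X G := init_state hX hr hn.le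
  have hmaxG : ∀ F' : Fin r → Finset V, St X F' → finrank ℝ (LL F') ≤ finrank ℝ (LL G) := by
    intro F' hF'
    have := hmax F' hF'
    omega
  have hU : ∀ j, UU G j = ⊥ := by
    intro j
    simp [UU, hG]
  let c : Fin r := ⟨0, hr⟩
  have hc : UU G c ≠ ⊤ := by
    rw [hU]
    intro h
    have h1 : finrank ℝ (⊥ : Submodule ℝ V) = finrank ℝ V := by rw [h, finrank_top]
    rw [finrank_bot] at h1
    omega
  have hfr := finrank_MM hr (UU G) ⊤
  have hpool : pool X G = X := by
    ext x
    simp [mem_pool, hG]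
  have hLG : (⨅ j, UU G j) = ⊥ := by
    rw [eq_bot_iff, ← hU c]
    exact iInf_le _ c
  rw [hLG, inf_bot_eq, finrank_bot, finrank_top] at hfr
  have hsum0 : ∑ j, finrank ℝ (UU G j) = 0 := by
    apply Finset.sum_eq_zero
    intro j _
    rw [hU, finrank_bot]
  rw [hsum0] at hfr
  have hrD : r * finrank ℝ V = (r - 1) * finrank ℝ V + finrank ℝ V := by
    obtain ⟨k, rfl⟩ : ∃ k, r = k + 1 := ⟨r - 1, by omega⟩
    rw [Nat.add_sub_cancel]; ring
  obtain ⟨K, hK, ⟨y, hy⟩, _, _, ⟨b, hb, hbs⟩, _⟩ := mono_step hX hG' c hc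
    (by rw [hpool]; omega) hmaxG
  rw [hU, Submodule.mem_bot] at hbs
  obtain ⟨l, hl⟩ := hX.acyc
  have h2 : 0 < l (∑ x ∈ K, b x • x) := by
    rw [map_sum]
    apply Finset.sum_pos _ ⟨y, hy⟩
    intro x hx
    rw [map_smul, smul_eq_mul]
    exact mul_pos (hb x hx) (hl x (mem_pool.mp (hK hx)).1)
  rw [hbs, map_zero] at h2
  exact lt_irrefl _ h2

/-- states with `nu` classes of `dim V + 1` elements -/
def Sn (X : Finset V) (r κ ν : ℕ) (F : Fin r → Finset V) : Prop :=
  St X F ∧ finrank ℝ (LL F) = κ ∧ (∀ j, (F j).card ≤ finrank ℝ V + 1) ∧ nu F = ν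

lemma sum_card_le {X : Finset V} {F : Fin r → Finset V} (hF : St X F) :
    ∑ j, (F j).card ≤ X.card := by
  have := card_pool hF.sub hF.disj
  omega

/-- release of one class -/
lemma release {X : Finset V} (hX : Gen X) (hr : 0 < r) {κ ν : ℕ}
    (hmax : ∀ F' : Fin r → Finset V, St X F' → finrank ℝ (LL F') ≤ κ)
    (hk : 1 ≤ κ) (hkD : κ < finrank ℝ V)
    (hn : (r - 1) * finrank ℝ V + κ + ν < X.card)
    (h : ∃ F : Fin r → Finset V, Sn X r κ ν F) :
    (∃ F : Fin r → Finset V, Sn X r κ (ν + 1) F) ∧ 5 + ν ≤ r ∧ (2 ≤ κ → 6 + ν ≤ r) := by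
  classical
  obtain ⟨F, ⟨hF, hFk, hFc, hFn⟩, hext⟩ := exists_maxi (Sn X r κ ν) (fun F => ∑ j, (F j).card)
    X.card (fun F h => sum_card_le h.1) h
  have hmaxF : ∀ F' : Fin r → Finset V, St X F' → finrank ℝ (LL F') ≤ finrank ℝ (LL F) := by
    intro F' hF'
    rw [hFk]
    exact hmax F' hF'
  have hcount := count hX hr hF hFc
  have hrD : r * finrank ℝ V = (r - 1) * finrank ℝ V + finrank ℝ V := by
    obtain ⟨k, rfl⟩ : ∃ k, r = k + 1 := ⟨r - 1, by omega⟩
    rw [Nat.add_sub_cancel]; ring
  have he : finrank ℝ (MM (UU F) ⊤) < (pool X F).card := by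
    rw [hFk, hFn] at hcount
    omega
  obtain ⟨h5, h6⟩ := extremal hX hr hF he hmaxF (by omega) (by omega) (by
    intro F' hF' hk' hc' hn'
    apply hext F'
    refine ⟨hF', hk'.trans hFk, fun j => ?_, hn'.trans hFn⟩
    rcases hc' j with h1 | h1
    · exact h1.trans (hFc j)
    · omega)
  have hnN := nu_add_NF F
  rw [hFn] at hnN
  refine ⟨?_, by omega, fun h2 => by have := h6 (by omega); omega⟩
  obtain ⟨c, hc⟩ : (NF F).Nonempty := Finset.card_pos.mp (by omega)
  have hcc : (F c).card < finrank ℝ V := (Finset.mem_filter.mp hc).2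
  obtain ⟨K, hK, _, hKc, hSt, _, _⟩ := mono_step hX hF c (UU_ne_top hX hF hcc) he hmaxF
  have hdis : Disjoint (F c) K := by
    rw [Finset.disjoint_left]
    intro x hx hx'
    exact (mem_pool.mp (hK hx')).2 c hx
  have hcard : (F c ∪ K).card = finrank ℝ V + 1 := by
    rw [Finset.card_union_of_disjoint hdis]
    omega
  refine ⟨Function.update F c (F c ∪ K), hSt, ?_, ?_, ?_⟩
  · apply le_antisymm (hmax _ hSt)
    rw [← hFk]
    apply Submodule.finrank_mono
    apply iInf_mono
    intro j
    by_cases hj : j = c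
    · subst hj
      apply Submodule.span_mono
      rw [Function.update_self]
      exact_mod_cast Finset.subset_union_left
    · apply Submodule.span_mono
      rw [Function.update_of_ne hj]
  · intro j
    by_cases hj : j = c
    · subst hj
      rw [Function.update_self, hcard]
    · rw [Function.update_of_ne hj]
      exact hFc j
  · rw [← hFn]
    unfold nu
    have h1 : (Finset.univ.filter (fun j : Fin r => finrank ℝ V
        < (Function.update F c (F c ∪ K) j).card))
        = insert c (Finset.univ.filter (fun j : Fin r => finrank ℝ V < (F j).card)) := by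
      ext j
      simp only [Finset.mem_filter, Finset.mem_univ, true_and, Finset.mem_insert]
      by_cases hj : j = c
      · subst hj
        simp only [Function.update_self, true_or, iff_true, hcard]
        omega
      · simp [hj]
    rw [h1, Finset.card_insert_of_notMem]
    rw [Finset.mem_filter]
    rintro ⟨_, h2⟩
    omega

/-- the bound -/
theorem bound {X : Finset V} (hX : Gen X) (hr : 0 < r) (hD : 1 ≤ finrank ℝ V)
    (hn : (r - 1) * finrank ℝ V < X.card) :
    ∃ F : Fin r → Finset V, St X F ∧ (∀ j, (F j).card ≤ finrank ℝ V) ∧ 1 ≤ finrank ℝ (LL F) ∧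
      (∀ F' : Fin r → Finset V, St X F' → finrank ℝ (LL F') ≤ finrank ℝ (LL F)) ∧
      (finrank ℝ (LL F) = finrank ℝ V ∨
        (finrank ℝ (LL F) = 1 ∧ X.card ≤ (r - 1) * finrank ℝ V + 1 + (r - 4)) ∨
        X.card ≤ (r - 1) * finrank ℝ V + finrank ℝ (LL F) + (r - 5)) := by
  classical
  obtain ⟨F0, hF0, hmax0⟩ := exists_maxi (fun F : Fin r → Finset V => St X F)
    (fun F => finrank ℝ (LL F)) (finrank ℝ V) (fun F _ => Submodule.finrank_le _)
    ⟨_, init_state hX hr hn.le⟩
  obtain ⟨F, hF, hLF, hFc⟩ := thin hF0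
  have hmax : ∀ F' : Fin r → Finset V, St X F' → finrank ℝ (LL F') ≤ finrank ℝ (LL F) := by
    intro F' hF'
    rw [hLF]
    exact hmax0 F' hF'
  have hk1 := kap_pos hX hr hD hn hF hmax
  refine ⟨F, hF, hFc, hk1, hmax, ?_⟩
  set κ := finrank ℝ (LL F) with hκ
  rcases eq_or_lt_of_le (Submodule.finrank_le (LL F)) with h1 | h1
  · left; exact h1
  · right
    by_contra hcon
    push Not at hcon
    obtain ⟨hc1, hc2⟩ := hcon
    have hS0 : ∃ G : Fin r → Finset V, Sn X r κ 0 G := by
      refine ⟨F, hF, rfl, fun j => (hFc j).trans (Nat.le_succ _), ?_⟩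
      unfold nu
      rw [Finset.card_eq_zero, Finset.filter_eq_empty_iff]
      intro j _
      exact not_lt.mpr (hFc j)
    by_cases hk2 : 2 ≤ κ
    · have hind : ∀ ν, ν ≤ r - 5 → ∃ G : Fin r → Finset V, Sn X r κ ν G := by
        intro ν
        induction ν with
        | zero => intro _; exact hS0
        | succ ν ih =>
          intro hν
          exact (release hX hr hmax hk1 h1 (by omega) (ih (by omega))).1
      have h2 := (release hX hr hmax hk1 h1 (by omega) (hind (r - 5) le_rfl)).2.2 hk2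
      omega
    · have hk : κ = 1 := by omega
      have hc3 := hc1 hk
      have hind : ∀ ν, ν ≤ r - 4 → ∃ G : Fin r → Finset V, Sn X r κ ν G := by
        intro ν
        induction ν with
        | zero => intro _; exact hS0
        | succ ν ih =>
          intro hν
          exact (release hX hr hmax hk1 h1 (by omega) (ih (by omega))).1
      have h2 := (release hX hr hmax hk1 h1 (by omega) (hind (r - 4) le_rfl)).2.1
      omega

end fin

end Pool.Agent.RY
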