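import Mathlib

/-!
The colourful cone lemma.
-/

set_option linter.unusedSectionVars false

namespace Pool.Agent.RY

open scoped BigOperators Topology
open Module Filter

section avoid

variable {M : Type*} [AddCommGroup M] [Module ℝ M]

lemma ev_notMem (p : Submodule ℝ M) (z v : M) (hv : v ∉ p) :
    ∀ᶠ ε in 𝓝[>] (0:ℝ), z + ε • v ∉ p := by
  by_cases h : ∃ e : ℝ, 0 < e ∧ z + e • v ∈ p
  · obtain ⟨e, he, h1⟩ := h
    have h2 : ∀ᶠ ε in 𝓝[>] (0:ℝ), ε < e := by
      apply mem_nhdsWithin_of_mem_nhds
      exact Iio_mem_nhds he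
    filter_upwards [h2] with ε h3 h4
    have h5 : (e - ε) • v ∈ p := by
      have h6 := p.sub_mem h1 h4
      have h7 : z + e • v - (z + ε • v) = (e - ε) • v := by rw [sub_smul]; abel
      rwa [h7] at h6
    have h8 : e - ε ≠ 0 := by
      have : 0 < e - ε := by linarith
      exact this.ne'
    exact hv ((p.smul_mem_iff h8).mp h5)
  · push Not at h
    filter_upwards [self_mem_nhdsWithin] with ε h3
    exact h ε h3

lemma ev_pos (a b : ℝ) (ha : 0 < a) : ∀ᶠ ε in 𝓝[>] (0:ℝ), 0 < a + ε * b := by
  have h4 : Tendsto (fun η : ℝ => a + η * b) (𝓝[>] (0:ℝ)) (𝓝 (a + 0 * b)) := by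
    apply Tendsto.mono_left _ nhdsWithin_le_nhds
    exact (Continuous.tendsto (by fun_prop) 0)
  apply h4.eventually_const_lt
  rwa [zero_mul, add_zero]

lemma avoid {K J : Type*} [Finite K] [Finite J] (g : K → Dual ℝ M) (hg : ∀ k, ∃ x, g k x ≠ 0)
    (h : J → Dual ℝ M) (q0 : M) (hh : ∀ j, 0 < h j q0) :
    ∃ q, (∀ k, g k q ≠ 0) ∧ (∀ j, 0 < h j q) := by
  obtain ⟨v, hv⟩ := Dual.exists_forall_ne_zero_of_forall_exists g hg
  have h1 : ∀ᶠ ε in 𝓝[>] (0:ℝ), ∀ k, q0 + ε • v ∉ LinearMap.ker (g k) := by
    rw [eventually_all]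
    intro k
    exact ev_notMem _ _ _ (fun h => hv k h)
  have h2 : ∀ᶠ ε in 𝓝[>] (0:ℝ), ∀ j, 0 < h j q0 + ε * h j v := by
    rw [eventually_all]
    intro j
    exact ev_pos _ _ (hh j)
  obtain ⟨ε, h3, h4⟩ := (h1.and h2).exists
  refine ⟨q0 + ε • v, fun k hk => h3 k hk, fun j => ?_⟩
  have := h4 j
  simpa using this

end avoid

section cov

variable {M : Type*} [AddCommGroup M] [Module ℝ M] [FiniteDimensional ℝ M]
  {ι C : Type*} [Fintype ι] [DecidableEq ι] [Fintype C]

/-- exchange of one colour -/
lemma exch (hcard : Fintype.card ι = finrank ℝ M) (b : Basis ι ℝ M) (w : M) (i : ι)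
    (hw : b.coord i w ≠ 0) :
    LinearIndependent ℝ (Function.update (fun k => b k) i w) ∧
    ∀ x : M, ∑ k, (if k = i then b.coord i x / b.coord i w
      else b.coord k x - b.coord i x / b.coord i w * b.coord k w) •
        (Function.update (fun k => b k) i w k) = x := by
  have key : ∀ x : M, ∑ k, (if k = i then b.coord i x / b.coord i w
      else b.coord k x - b.coord i x / b.coord i w * b.coord k w) •
        (Function.update (fun k => b k) i w k) = x := by
    intro x
    set φ := b.coord i x / b.coord i w with hφ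
    have h1 : ∀ k, (if k = i then φ else b.coord k x - φ * b.coord k w) •
        (Function.update (fun k => b k) i w k)
        = (b.coord k x - φ * b.coord k w) • b k + (if k = i then φ • w else 0) := by
      intro k
      by_cases hk : k = i
      · subst hk
        have : b.coord k x - φ * b.coord k w = 0 := by
          rw [hφ]; field_simp; ring
        rw [this]
        simp
      · simp [hk]
    rw [Finset.sum_congr rfl (fun k _ => h1 k), Finset.sum_add_distrib]
    have h2 : ∑ k, (b.coord k x - φ * b.coord k w) • b k = x - φ • w := by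
      simp only [sub_smul, mul_smul, Finset.sum_sub_distrib]
      rw [← Finset.smul_sum]
      have e1 : ∑ k, b.coord k x • b k = x := b.sum_repr x
      have e2 : ∑ k, b.coord k w • b k = w := b.sum_repr w
      rw [e1, e2]
    rw [h2]
    simp
  refine ⟨?_, key⟩
  apply linearIndependent_of_top_le_span_of_card_eq_finrank _ hcard
  intro x _
  rw [← key x]
  refine Submodule.sum_mem _ fun k _ => Submodule.smul_mem _ _ (Submodule.subset_span ⟨k, rfl⟩)

/-- the colourful cone lemma -/
theorem cov (hcard : Fintype.card ι = finrank ℝ M) (u : ι → C → M) (p : M)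
    (hu : ∀ i, ∃ m : ℝ, 0 ≤ m ∧ ∑ c, u i c = m • p)
    (s0 : ι → C) (h0 : LinearIndependent ℝ (fun i => u i (s0 i))) :
    ∃ (s : ι → C) (a : ι → ℝ), LinearIndependent ℝ (fun i => u i (s i)) ∧ (∀ i, 0 ≤ a i) ∧
      ∑ i, a i • u i (s i) = p := by
  classical
  let G := {s : ι → C // LinearIndependent ℝ (fun i => u i (s i))}
  let bas : G → Basis ι ℝ M := fun g => basisOfLinearIndependentOfCardEqFinrank' _ g.2 hcard
  have bas_apply : ∀ (g : G) (i : ι), bas g i = u i (g.1 i) := by
    intro g i
    simp [bas]
  -- generic start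
  let K2 := {t : G × ι × ι // t.2.1 ≠ t.2.2 ∧
    ((bas t.1).coord t.2.1 p ≠ 0 ∨ (bas t.1).coord t.2.2 p ≠ 0)}
  let gg : (G × ι) ⊕ K2 → Dual ℝ M := Sum.elim (fun t => (bas t.1).coord t.2)
    (fun t => ((bas t.1.1).coord t.1.2.2 p) • (bas t.1.1).coord t.1.2.1
      - ((bas t.1.1).coord t.1.2.1 p) • (bas t.1.1).coord t.1.2.2)
  have hgg : ∀ k, ∃ x, gg k x ≠ 0 := by
    rintro (⟨g, i⟩ | ⟨⟨g, i, k⟩, hik, hne⟩)
    · exact ⟨bas g i, by simp [gg]⟩
    · rcases hne with hne | hne
      · refine ⟨bas g k, ?_⟩
        simp only [gg, Sum.elim_inr, LinearMap.sub_apply, LinearMap.smul_apply]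
        simp only [Basis.coord_apply, Basis.repr_self, Finsupp.single_apply]
        simp only [Basis.coord_apply] at hne
        simp [hik.symm, hne]
      · refine ⟨bas g i, ?_⟩
        simp only [gg, Sum.elim_inr, LinearMap.sub_apply, LinearMap.smul_apply]
        simp only [Basis.coord_apply, Basis.repr_self, Finsupp.single_apply]
        simp only [Basis.coord_apply] at hne
        simp [hik, hne]
  let g0 : G := ⟨s0, h0⟩
  obtain ⟨q, hq1, hq2⟩ := avoid gg hgg (fun i : ι => (bas g0).coord i) (∑ i, bas g0 i) (by
    intro i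
    rw [map_sum]
    simp only [Basis.coord_apply, Basis.repr_self, Finsupp.single_apply]
    simp)
  have hq3 : ∀ (g : G) (i : ι), (bas g).coord i q ≠ 0 := fun g i => hq1 (Sum.inl (g, i))
  have hq4 : ∀ (g : G) (i k : ι), i ≠ k →
      ((bas g).coord i p ≠ 0 ∨ (bas g).coord k p ≠ 0) →
      (bas g).coord k p * (bas g).coord i q - (bas g).coord i p * (bas g).coord k q ≠ 0 := by
    intro g i k h1 h2
    have := hq1 (Sum.inr ⟨(g, i, k), h1, h2⟩)
    simpa [gg] using this
  let f : G → ι → ℝ → ℝ := fun g i t => (1 - t) * (bas g).coord i q + t * (bas g).coord i p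
  have hf : ∀ g i, Continuous (f g i) := by
    intro g i
    simp only [f]
    fun_prop
  let S : Set ℝ := Set.Icc 0 1 ∩ ⋃ g : G, ⋂ i : ι, {t | 0 ≤ f g i t}
  have hSc : IsCompact S := by
    apply isCompact_Icc.inter_right
    apply isClosed_iUnion_of_finite
    intro g
    apply isClosed_iInter
    intro i
    exact isClosed_le continuous_const (hf g i)
  have hSn : S.Nonempty := by
    refine ⟨0, ⟨le_refl 0, zero_le_one⟩, Set.mem_iUnion.mpr ⟨g0, Set.mem_iInter.mpr fun i => ?_⟩⟩
    have := hq2 i
    simp only [f, Set.mem_ofPred_eq]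
    linarith
  obtain ⟨t, htS, htmax⟩ := hSc.exists_isMaxOn hSn continuous_id.continuousOn
  obtain ⟨⟨ht0, ht1⟩, ht2⟩ := htS
  obtain ⟨g, hg⟩ := Set.mem_iUnion.mp ht2
  have hg' : ∀ i, 0 ≤ f g i t := fun i => Set.mem_iInter.mp hg i
  have hmax : ∀ t' ∈ S, t' ≤ t := fun t' h => htmax h
  -- representation gives membership
  have hrep : ∀ t' ∈ Set.Icc (0:ℝ) 1, ∀ (s : ι → C) (a : ι → ℝ),
      LinearIndependent ℝ (fun i => u i (s i)) → (∀ i, 0 ≤ a i) →
      ∑ i, a i • u i (s i) = (1 - t') • q + t' • p → t' ∈ S := by
    intro t' h1 s a h2 h3 h4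
    refine ⟨h1, Set.mem_iUnion.mpr ⟨⟨s, h2⟩, Set.mem_iInter.mpr fun i => ?_⟩⟩
    have h5 : (bas ⟨s, h2⟩).coord i ((1 - t') • q + t' • p) = a i := by
      rw [← h4, map_sum]
      simp only [map_smul]
      have : ∀ k, u k (s k) = bas ⟨s, h2⟩ k := fun k => (bas_apply ⟨s, h2⟩ k).symm
      simp only [this, Basis.coord_apply, Basis.repr_self, Finsupp.single_apply, smul_eq_mul]
      simp
    have h6 : f ⟨s, h2⟩ i t' = a i := by
      rw [← h5]
      simp [f]
    simp only [Set.mem_ofPred_eq, h6]
    exact h3 i
  rcases eq_or_lt_of_le ht1 with ht1 | ht1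
  · -- reached p
    refine ⟨g.1, fun i => f g i t, g.2, hg', ?_⟩
    have h1 : ∀ i, f g i t = (bas g).coord i p := by
      intro i
      simp [f, ht1]
    simp only [h1, ← bas_apply]
    exact (bas g).sum_repr p
  · exfalso
    have hxt : ∀ t' i, f g i t' = (bas g).coord i ((1 - t') • q + t' • p) := by
      intro t' i
      simp [f]
    -- affine increments
    have hinc : ∀ g' i t' η, f g' i (t' + η) = f g' i t' + η * ((bas g').coord i p
        - (bas g').coord i q) := by
      intro g' i t' η
      simp only [f]
      ring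
    by_cases hB : ∃ i, f g i t = 0 ∧ (bas g).coord i p < (bas g).coord i q
    · obtain ⟨i, hi0, hi1⟩ := hB
      have hpi : (bas g).coord i p < 0 := by
        have h2 : (1 - t) * (bas g).coord i q + t * (bas g).coord i p = 0 := hi0
        by_contra h3
        push Not at h3
        have h5 : 0 < (1 - t) * (bas g).coord i q := mul_pos (by linarith) (by linarith)
        have h6 : 0 ≤ t * (bas g).coord i p := mul_nonneg ht0 h3
        linarith
      have hpos : ∀ k, k ≠ i → 0 < f g k t := by
        intro k hk
        rcases eq_or_lt_of_le (hg' k) with h1 | h1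
        · exfalso
          have e1 : (1 - t) * (bas g).coord k q + t * (bas g).coord k p = 0 := h1.symm
          have e2 : (1 - t) * (bas g).coord i q + t * (bas g).coord i p = 0 := hi0
          refine hq4 g i k hk.symm (Or.inl hpi.ne) ?_
          have h1t : (1 - t) ≠ 0 := by linarith
          have e3 : (1 - t) * ((bas g).coord k p * (bas g).coord i q
              - (bas g).coord i p * (bas g).coord k q) = 0 := by
            linear_combination (bas g).coord k p * e2 - (bas g).coord i p * e1
          exact (mul_eq_zero.mp e3).resolve_left h1t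
        · exact h1
      -- a colour on the negative side
      have hcol : ∃ c, (bas g).coord i (u i c) < 0 := by
        by_contra hcon
        push Not at hcon
        obtain ⟨m, hm, hsum⟩ := hu i
        have h1 := congrArg ((bas g).coord i) hsum
        rw [map_sum, map_smul, smul_eq_mul] at h1
        have h2 : (1:ℝ) ≤ ∑ c, (bas g).coord i (u i c) := by
          have h3 : (bas g).coord i (u i (g.1 i)) = 1 := by
            rw [← bas_apply]
            simp
          calc (1:ℝ) = (bas g).coord i (u i (g.1 i)) := h3.symm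
            _ ≤ _ := Finset.single_le_sum (fun c _ => hcon c) (Finset.mem_univ (g.1 i))
        have h4 : m * (bas g).coord i p ≤ 0 := mul_nonpos_of_nonneg_of_nonpos hm hpi.le
        linarith
      obtain ⟨c, hc⟩ := hcol
      obtain ⟨hli, hx⟩ := exch hcard (bas g) (u i c) i hc.ne
      have hupd : (Function.update (fun k => bas g k) i (u i c))
          = fun k => u k ((Function.update g.1 i c) k) := by
        funext k
        by_cases hk : k = i
        · subst hk; simp
        · simp [hk, bas_apply]
      rw [hupd] at hli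
      -- choose small η
      have h3 : ∀ᶠ η in 𝓝[>] (0:ℝ), ∀ k, k ≠ i → 0 < f g k t + η * (((bas g).coord k p
          - (bas g).coord k q) - ((bas g).coord i p - (bas g).coord i q) /
            (bas g).coord i (u i c) * (bas g).coord k (u i c)) := by
        rw [eventually_all]
        intro k
        by_cases hk : k = i
        · simp [hk]
        · filter_upwards [ev_pos _ (((bas g).coord k p
          - (bas g).coord k q) - ((bas g).coord i p - (bas g).coord i q) /
            (bas g).coord i (u i c) * (bas g).coord k (u i c)) (hpos k hk)] with η h5 _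
          exact h5
      have h4 : ∀ᶠ η in 𝓝[>] (0:ℝ), t + η < 1 := by
        have : ∀ᶠ η in 𝓝[>] (0:ℝ), η < 1 - t :=
          mem_nhdsWithin_of_mem_nhds (Iio_mem_nhds (by linarith))
        filter_upwards [this] with η h5
        linarith
      obtain ⟨η, ⟨h5, h6⟩, h7⟩ := ((h3.and h4).and self_mem_nhdsWithin).exists
      have h7' : 0 < η := h7
      have hmem := hrep (t + η) ⟨by linarith, h6.le⟩ (Function.update g.1 i c)
        (fun k => if k = i then (bas g).coord i ((1 - (t + η)) • q + (t + η) • p) /
            (bas g).coord i (u i c)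
          else (bas g).coord k ((1 - (t + η)) • q + (t + η) • p)
            - (bas g).coord i ((1 - (t + η)) • q + (t + η) • p) / (bas g).coord i (u i c)
              * (bas g).coord k (u i c)) hli ?_ ?_
      · have := hmax _ hmem
        linarith
      · intro k
        have e0 : (bas g).coord i ((1 - (t + η)) • q + (t + η) • p)
            = η * ((bas g).coord i p - (bas g).coord i q) := by
          rw [← hxt, hinc, hi0, zero_add]
        by_cases hk : k = i
        · simp only [hk, if_true]
          rw [e0]
          apply div_nonneg_of_nonpos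
          · exact mul_nonpos_of_nonneg_of_nonpos h7'.le (by linarith)
          · exact hc.le
        · simp only [hk, if_false]
          rw [e0, ← hxt, hinc]
          have := h5 k hk
          refine le_of_lt ?_
          calc (0:ℝ) < _ := this
            _ = _ := by ring
      · have := hx ((1 - (t + η)) • q + (t + η) • p)
        rw [hupd] at this
        exact this
    · push Not at hB
      -- can continue with the same g
      have h3 : ∀ᶠ η in 𝓝[>] (0:ℝ), ∀ k, 0 ≤ f g k t + η * ((bas g).coord k p
          - (bas g).coord k q) := by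
        rw [eventually_all]
        intro k
        rcases eq_or_lt_of_le (hg' k) with h1 | h1
        · filter_upwards [self_mem_nhdsWithin] with η h5
          rw [← h1, zero_add]
          exact mul_nonneg (le_of_lt h5) (by linarith [hB k h1.symm])
        · filter_upwards [ev_pos _ ((bas g).coord k p - (bas g).coord k q) h1] with η h5
          exact h5.le
      have h4 : ∀ᶠ η in 𝓝[>] (0:ℝ), t + η < 1 := by
        have : ∀ᶠ η in 𝓝[>] (0:ℝ), η < 1 - t :=
          mem_nhdsWithin_of_mem_nhds (Iio_mem_nhds (by linarith))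
        filter_upwards [this] with η h5
        linarith
      obtain ⟨η, ⟨h5, h6⟩, h7⟩ := ((h3.and h4).and self_mem_nhdsWithin).exists
      have h7' : 0 < η := h7
      have hmem : t + η ∈ S := by
        refine ⟨⟨by linarith, h6.le⟩, Set.mem_iUnion.mpr ⟨g, Set.mem_iInter.mpr fun k => ?_⟩⟩
        have := h5 k
        rw [Set.mem_ofPred_eq, hinc]
        exact this
      have := hmax _ hmem
      linarith

end cov

end Pool.Agent.RY
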