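import Pool.Agent.Lib_helper10.RY.Tie

/-!
Extremal states have many small classes.
-/

set_option linter.unusedSectionVars false

namespace Pool.Agent.RY

open scoped BigOperators Topology
open Module Filter

section num

variable {ι : Type*} [DecidableEq ι]

/-- averaging over ordered pairs -/
lemma pair_sum (S : Finset ι) (d : ι → ℕ) (a m : ℕ) (hS : 2 ≤ S.card)
    (h : ∀ i ∈ S, ∀ j ∈ S, i ≠ j → a * d i + d j ≤ m) :
    (a + 1) * ∑ i ∈ S, d i ≤ S.card * m := by
  have h1 : ∑ i ∈ S, ∑ j ∈ S.erase i, (a * d i + d j) ≤ ∑ i ∈ S, ∑ _j ∈ S.erase i, m := by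
    refine Finset.sum_le_sum fun i hi => Finset.sum_le_sum fun j hj => ?_
    obtain ⟨h2, h3⟩ := Finset.mem_erase.mp hj
    exact h i hi j h3 h2.symm
  have h2 : ∀ i ∈ S, ∑ _j ∈ S.erase i, m = (S.card - 1) * m := by
    intro i hi
    rw [Finset.sum_const, Finset.card_erase_of_mem hi, smul_eq_mul]
  rw [Finset.sum_congr rfl h2, Finset.sum_const, smul_eq_mul] at h1
  obtain ⟨k, hk⟩ : ∃ k, S.card = k + 2 := ⟨S.card - 2, by omega⟩
  have h3 : ∀ i ∈ S, ∑ j ∈ S.erase i, (a * d i + d j) + d i
      = (S.card - 1) * (a * d i) + ∑ j ∈ S, d j := by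
    intro i hi
    rw [Finset.sum_add_distrib, Finset.sum_const, Finset.card_erase_of_mem hi, smul_eq_mul,
      add_assoc, Finset.sum_erase_add _ _ hi]
  have h4 : ∑ i ∈ S, (∑ j ∈ S.erase i, (a * d i + d j) + d i)
      = (S.card - 1) * (a * ∑ i ∈ S, d i) + S.card * ∑ j ∈ S, d j := by
    rw [Finset.sum_congr rfl h3, Finset.sum_add_distrib, Finset.sum_const, smul_eq_mul,
      ← Finset.mul_sum, ← Finset.mul_sum]
  rw [Finset.sum_add_distrib] at h4
  set A := ∑ i ∈ S, d i with hA
  set B := ∑ i ∈ S, ∑ j ∈ S.erase i, (a * d i + d j) with hB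
  rw [hk] at h1 h4 ⊢
  have e1 : k + 2 - 1 = k + 1 := by omega
  rw [e1] at h1 h4
  have h5 : (k + 1) * ((a + 1) * A) ≤ (k + 1) * ((k + 2) * m) := by
    have : B = (k + 1) * ((a + 1) * A) := by
      have h6 : B + A = (k + 1) * ((a + 1) * A) + A := by
        rw [h4]; ring
      omega
    rw [← this]
    calc B ≤ (k + 2) * ((k + 1) * m) := h1
      _ = (k + 1) * ((k + 2) * m) := by ring
  exact Nat.le_of_mul_le_mul_left h5 (by omega)

end num

section ext

variable {V : Type*} [AddCommGroup V] [Module ℝ V] [FiniteDimensional ℝ V] {r : ℕ}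

/-- number of classes with more than `dim V` elements -/
noncomputable def nu (F : Fin r → Finset V) : ℕ :=
  (Finset.univ.filter (fun j : Fin r => finrank ℝ V < (F j).card)).card

/-- the classes with fewer than `dim V` elements -/
noncomputable def NF (F : Fin r → Finset V) : Finset (Fin r) :=
  Finset.univ.filter (fun j : Fin r => (F j).card < finrank ℝ V)

lemma nu_add_NF (F : Fin r → Finset V) : nu F + (NF F).card ≤ r := by
  rw [nu, NF, ← Finset.card_union_of_disjoint]
  · refine (Finset.card_le_univ _).trans ?_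
    rw [Fintype.card_fin]
  · rw [Finset.disjoint_left]
    intro j h1 h2
    rw [Finset.mem_filter] at h1 h2
    omega

lemma Gen.UU_eq_top {X : Finset V} (hX : Gen X) {F : Fin r → Finset V} (hF : St X F) {j : Fin r}
    (h : finrank ℝ V ≤ (F j).card) : UU F j = ⊤ :=
  hX.span_eq_top (hF.sub j) h

lemma Gen.finrank_UU {X : Finset V} (hX : Gen X) {F : Fin r → Finset V} (hF : St X F) (j : Fin r) :
    finrank ℝ (UU F j) = min (F j).card (finrank ℝ V) := by
  rcases le_total (F j).card (finrank ℝ V) with h | h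
  · rw [min_eq_left h]
    exact hX.finrank_span (hF.sub j) h
  · rw [min_eq_right h, hX.UU_eq_top hF h, finrank_top]

lemma UU_ne_top {X : Finset V} (hX : Gen X) {F : Fin r → Finset V} (hF : St X F) {j : Fin r}
    (h : (F j).card < finrank ℝ V) : UU F j ≠ ⊤ := by
  intro h1
  have h2 := hX.finrank_UU hF j
  rw [h1, finrank_top, min_eq_left h.le] at h2
  omega

/-- the count -/
lemma count {X : Finset V} (hX : Gen X) (hr : 0 < r) {F : Fin r → Finset V} (hF : St X F)
    (hle : ∀ j, (F j).card ≤ finrank ℝ V + 1) :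
    (pool X F).card + r * finrank ℝ V + finrank ℝ (LL F) + nu F
      = finrank ℝ (MM (UU F) ⊤) + X.card + finrank ℝ V := by
  have h1 := finrank_MM hr (UU F) ⊤
  rw [top_inf_eq, finrank_top] at h1
  have h2 := card_pool hF.sub hF.disj
  have h3 : ∑ j, (F j).card = ∑ j, finrank ℝ (UU F j) + nu F := by
    rw [nu, Finset.card_filter, ← Finset.sum_add_distrib]
    refine Finset.sum_congr rfl fun j _ => ?_
    rw [hX.finrank_UU hF j]
    have := hle j
    split_ifs with h <;> omega
  have h4 : (⨅ j, UU F j) = LL F := rfl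
  rw [h4] at h1
  omega

/-- the quotient in terms of the small classes -/
lemma quot_count {X : Finset V} (hX : Gen X) (hr : 0 < r) {F : Fin r → Finset V} (hF : St X F) :
    finrank ℝ (MM (UU F) ⊤) + finrank ℝ V
      = ∑ j ∈ NF F, (finrank ℝ V - (F j).card) + finrank ℝ (LL F) := by
  have h1 := finrank_MM hr (UU F) ⊤
  rw [top_inf_eq, finrank_top] at h1
  have h4 : (⨅ j, UU F j) = LL F := rfl
  rw [h4] at h1
  have h3 : ∑ j ∈ NF F, (finrank ℝ V - (F j).card) + ∑ j, finrank ℝ (UU F j)
      = r * finrank ℝ V := by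
    rw [NF, Finset.sum_filter, ← Finset.sum_add_distrib]
    have : ∀ j ∈ (Finset.univ : Finset (Fin r)), (if (F j).card < finrank ℝ V
        then finrank ℝ V - (F j).card else 0) + finrank ℝ (UU F j) = finrank ℝ V := by
      intro j _
      rw [hX.finrank_UU hF j]
      split_ifs with h <;> omega
    rw [Finset.sum_congr rfl this, Finset.sum_const, Finset.card_univ, Fintype.card_fin,
      smul_eq_mul]
  omega

/-- two classes -/
lemma pair {X : Finset V} (hX : Gen X) {F : Fin r → Finset V} (hF : St X F)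
    (hk : 1 ≤ finrank ℝ (LL F)) {i j : Fin r} (hij : i ≠ j) (W : Submodule ℝ V)
    {B : Finset V} (hB : B ⊆ F i) (hW1 : W ≤ Submodule.span ℝ (B : Set V)) (hW2 : W ≤ UU F j)
    (hW : 1 ≤ finrank ℝ W) : finrank ℝ V + finrank ℝ W ≤ B.card + (F j).card := by
  classical
  have hBX : B ⊆ X := hB.trans (hF.sub i)
  have hd : Disjoint B (F j) := (hF.disj i j hij).mono_left hB
  by_cases h : B.card + (F j).card ≤ finrank ℝ V
  · exfalso
    have h1 := hX.disj_span hBX (hF.sub j) hd h
    have h2 : W = ⊥ := by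
      rw [eq_bot_iff, ← h1.eq_bot]
      exact le_inf hW1 hW2
    rw [h2, finrank_bot] at hW
    omega
  · push Not at h
    have h1 : Submodule.span ℝ (B : Set V) ⊔ UU F j = ⊤ := by
      rw [UU, ← Submodule.span_union, ← Finset.coe_union]
      apply hX.span_eq_top (Finset.union_subset hBX (hF.sub j))
      rw [Finset.card_union_of_disjoint hd]
      exact h.le
    have h2 := Submodule.finrank_sup_add_finrank_inf_eq (Submodule.span ℝ (B : Set V)) (UU F j)
    rw [h1, finrank_top] at h2
    have h3 := Submodule.finrank_mono (le_inf hW1 hW2)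
    have h4 : finrank ℝ (Submodule.span ℝ (B : Set V)) ≤ B.card := finrank_span_finset_le_card B
    have h5 : finrank ℝ (UU F j) ≤ (F j).card := finrank_span_finset_le_card (F j)
    omega

lemma pair' {X : Finset V} (hX : Gen X) {F : Fin r → Finset V} (hF : St X F)
    (hk : 1 ≤ finrank ℝ (LL F)) {i j : Fin r} (hij : i ≠ j) :
    finrank ℝ V + finrank ℝ (LL F) ≤ (F i).card + (F j).card :=
  pair hX hF hk hij (LL F) (Finset.Subset.refl _) (iInf_le _ i) (iInf_le _ j) hk

lemma card_class {X : Finset V} {F : Fin r → Finset V} (hF : St X F) (j : Fin r) :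
    finrank ℝ (LL F) ≤ (F j).card :=
  (Submodule.finrank_mono (iInf_le _ j : LL F ≤ UU F j)).trans (finrank_span_finset_le_card (F j))

lemma nu_update {F : Fin r → Finset V} {c : Fin r} {G : Finset V}
    (h1 : (F c).card ≤ finrank ℝ V) (h2 : G.card ≤ finrank ℝ V) :
    nu (Function.update F c G) = nu F := by
  classical
  unfold nu
  congr 1
  apply Finset.filter_congr
  intro j _
  by_cases hj : j = c
  · subst hj
    simp only [Function.update_self]
    constructor <;> intro h <;> omega
  · simp [hj]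

/-- the extremal analysis -/
theorem extremal {X : Finset V} (hX : Gen X) (hr : 0 < r) {F : Fin r → Finset V} (hF : St X F)
    (he : finrank ℝ (MM (UU F) ⊤) < (pool X F).card)
    (hmax : ∀ F' : Fin r → Finset V, St X F' → finrank ℝ (LL F') ≤ finrank ℝ (LL F))
    (hk : 1 ≤ finrank ℝ (LL F)) (hkD : finrank ℝ (LL F) < finrank ℝ V)
    (hext : ∀ F' : Fin r → Finset V, St X F' → finrank ℝ (LL F') = finrank ℝ (LL F) →
      (∀ j, (F' j).card ≤ (F j).card ∨ (F' j).card ≤ finrank ℝ V) → nu F' = nu F →
      ∑ j, (F' j).card ≤ ∑ j, (F j).card) :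
    5 ≤ (NF F).card ∧ (2 ≤ finrank ℝ (LL F) → 6 ≤ (NF F).card) := by
  classical
  set D := finrank ℝ V with hD
  set κ := finrank ℝ (LL F) with hκ
  let d : Fin r → ℕ := fun j => D - (F j).card
  have hq := quot_count hX hr hF
  have hlarge := quot_large hX hr hF he hmax
  have hsum : 2 * (D - κ) ≤ ∑ j ∈ NF F, d j := by
    have : finrank ℝ (MM (UU F) ⊤) + D = ∑ j ∈ NF F, d j + κ := hq
    omega
  have hmem : ∀ j, j ∈ NF F → (F j).card < D := by
    intro j hj
    exact (Finset.mem_filter.mp hj).2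
  have hpair : ∀ i ∈ NF F, ∀ j ∈ NF F, i ≠ j → 1 * d i + d j ≤ D - κ := by
    intro i hi j hj hij
    have h1 := pair' hX hF hk hij
    have h2 := hmem i hi
    have h3 := hmem j hj
    simp only [d, one_mul]
    omega
  -- tie sets
  have htie : ∀ c ∈ NF F, ∃ (K T : Finset V) (b : V → ℝ), K ⊆ pool X F ∧
      K.card + (F c).card = D + 1 ∧ (∀ x ∈ K, 0 < b x) ∧ T ⊆ F c ∧ K.card ≤ T.card ∧
      κ ≤ finrank ℝ (LL F ⊓ Submodule.span ℝ ((F c \ T : Finset V) : Set V) : Submodule ℝ V) + 1 ∧
      (T = F c → ∑ x ∈ K, b x • x ∈ LL F) := by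
    intro c hc
    obtain ⟨K, T, b, hK, hKc, hb, hT, hTne, hSt, hLL, hfr, hTe⟩ :=
      tie hX hF c (UU_ne_top hX hF (hmem c hc)) he hmax
    refine ⟨K, T, b, hK, hKc, hb, hT, ?_, hfr, hTe⟩
    have hdis : Disjoint K (F c \ T) := by
      rw [Finset.disjoint_left]
      intro x hx hx'
      exact (mem_pool.mp (hK hx)).2 c (Finset.mem_sdiff.mp hx').1
    have hcard : (K ∪ (F c \ T)).card + T.card = D + 1 := by
      rw [Finset.card_union_of_disjoint hdis, add_assoc, Finset.card_sdiff_add_card_eq_card hT]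
      exact hKc
    have hTpos : 0 < T.card := Finset.card_pos.mpr hTne
    have hcle : (K ∪ (F c \ T)).card ≤ D := by omega
    have h1 := hext _ hSt (le_antisymm (hmax _ hSt) (Submodule.finrank_mono hLL)) (by
      intro j
      by_cases hj : j = c
      · subst hj
        right
        simpa using hcle
      · left
        simp [hj]) (nu_update (hmem c hc).le hcle)
    have h2 : ∑ j, (Function.update F c (K ∪ (F c \ T)) j).card + (F c).card
        = ∑ j, (F j).card + (K ∪ (F c \ T)).card := by
      rw [← Finset.sum_erase_add _ _ (Finset.mem_univ c),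
        ← Finset.sum_erase_add _ (fun j => (F j).card) (Finset.mem_univ c)]
      have h3 : ∑ j ∈ Finset.univ.erase c, (Function.update F c (K ∪ (F c \ T)) j).card
          = ∑ j ∈ Finset.univ.erase c, (F j).card := by
        refine Finset.sum_congr rfl fun j hj => ?_
        rw [Function.update_of_ne (Finset.mem_erase.mp hj).1]
      rw [h3, Function.update_self]
      ring
    omega
  have hN2 : 2 ≤ (NF F).card := by
    by_contra hcon
    push Not at hcon
    have h1 : ∑ j ∈ NF F, d j ≤ D - κ := by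
      rcases Nat.lt_or_ge (NF F).card 1 with h | h
      · have : NF F = ∅ := Finset.card_eq_zero.mp (by omega)
        rw [this, Finset.sum_empty]
        omega
      · obtain ⟨c, hc⟩ := Finset.card_eq_one.mp (show (NF F).card = 1 by omega)
        rw [hc, Finset.sum_singleton]
        have := card_class hF c
        simp only [d]
        omega
    omega
  have hsum2 := pair_sum (NF F) d 1 (D - κ) hN2 hpair
  have hbig : 2 ≤ κ → 6 ≤ (NF F).card := by
    intro hk2
    have hpair2 : ∀ c ∈ NF F, ∀ i ∈ NF F, c ≠ i → 2 * d c + d i ≤ D - κ := by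
      intro c hc i hi hci
      obtain ⟨K, T, b, hK, hKc, hb, hT, hKT, hfr, _⟩ := htie c hc
      have h1 := pair hX hF hk hci (LL F ⊓ Submodule.span ℝ ((F c \ T : Finset V) : Set V))
        Finset.sdiff_subset inf_le_right (inf_le_left.trans (iInf_le _ i)) (by omega)
      have h2 := hmem c hc
      have h3 := hmem i hi
      have h4 := Finset.card_sdiff_add_card_eq_card hT
      simp only [d]
      omega
    have h1 := pair_sum (NF F) d 2 (D - κ) hN2 hpair2
    by_contra hcon
    push Not at hcon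
    have h2 : (NF F).card * (D - κ) ≤ 5 * (D - κ) := Nat.mul_le_mul_right _ (by omega)
    omega
  refine ⟨?_, hbig⟩
  by_contra hcon
  push Not at hcon
  have hk1 : κ = 1 := by
    by_contra h
    have := hbig (by omega)
    omega
  have hN4 : (NF F).card = 4 := by
    by_contra h
    have h2 : (NF F).card * (D - κ) ≤ 3 * (D - κ) := Nat.mul_le_mul_right _ (by omega)
    omega
  rw [hN4] at hsum2
  have hsumeq : ∑ j ∈ NF F, d j = 2 * (D - κ) := by omega
  -- every defect is half
  have hhalf : ∀ c ∈ NF F, D - κ ≤ 2 * d c := by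
    intro c hc
    have h1 : ((NF F).erase c).card = 3 := by rw [Finset.card_erase_of_mem hc, hN4]
    have h2 := pair_sum ((NF F).erase c) d 1 (D - κ) (by omega) (by
      intro i hi j hj hij
      exact hpair i (Finset.mem_erase.mp hi).2 j (Finset.mem_erase.mp hj).2 hij)
    have h3 := Finset.sum_erase_add _ d hc
    rw [h1] at h2
    omega
  obtain ⟨c, hc, i, hi, hci⟩ := Finset.one_lt_card.mp (show 1 < (NF F).card by omega)
  have hdc : 2 * d c = D - κ := by
    have h1 := hhalf c hc
    have h2 := hhalf i hi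
    have h3 := hpair c hc i hi hci
    omega
  obtain ⟨K, T, b, hK, hKc, hb, hT, hKT, _, hTe⟩ := htie c hc
  have hFc := hmem c hc
  have hdc' : d c = D - (F c).card := rfl
  have hTeq : T = F c := Finset.eq_of_subset_of_card_le hT (by omega)
  have heK := hTe hTeq
  have hKcard : K.card = d c + 1 := by omega
  have hqv : finrank ℝ (MM (UU F) ⊤) = 2 * d c := by
    have : finrank ℝ (MM (UU F) ⊤) + D = ∑ j ∈ NF F, d j + κ := hq
    omega
  obtain ⟨P, hKP, hP, hPcard⟩ := Finset.exists_subsuperset_card_eq hK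
    (show K.card ≤ finrank ℝ (MM (UU F) ⊤) + 1 by omega)
    (show finrank ℝ (MM (UU F) ⊤) + 1 ≤ (pool X F).card from he)
  obtain ⟨y1, hy1⟩ : K.Nonempty := Finset.card_pos.mp (by omega)
  obtain ⟨y0, hy0, hy0K⟩ : ∃ y ∈ P, y ∉ K := by
    by_contra h
    push Not at h
    have := Finset.card_le_card (fun x hx => h x hx : P ⊆ K)
    omega
  set R := (P.erase y0).erase y1 with hR
  have hy01 : y1 ≠ y0 := fun h => hy0K (h ▸ hy1)
  have hRcard : R.card + 2 = P.card := by
    rw [hR, Finset.card_erase_of_mem (Finset.mem_erase.mpr ⟨hy01, hKP hy1⟩),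
      Finset.card_erase_of_mem hy0]
    omega
  set W := LL F ⊔ Submodule.span ℝ (R : Set V) with hW
  have h1 : finrank ℝ W < finrank ℝ V := by
    have h2 := Submodule.finrank_add_le_finrank_add_finrank (LL F) (Submodule.span ℝ (R : Set V))
    have h5 : finrank ℝ (Submodule.span ℝ (R : Set V)) ≤ R.card := finrank_span_finset_le_card R
    have h4 : finrank ℝ W ≤ finrank ℝ (LL F) + finrank ℝ (Submodule.span ℝ (R : Set V)) := h2
    omega
  obtain ⟨lam, hne, hlam⟩ := Submodule.exists_dual_map_eq_bot_of_lt_top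
    (Submodule.lt_top_of_finrank_lt_finrank h1) inferInstance
  have hz : ∀ v ∈ W, lam v = 0 := by
    intro v hv
    have : lam v ∈ W.map lam := ⟨v, hv, rfl⟩
    rw [hlam] at this
    simpa using this
  have hz1 : ∀ v ∈ LL F, lam v = 0 := fun v hv => hz v (le_sup_left (a := LL F) hv)
  have hz2 : ∀ x ∈ R, lam x = 0 := fun x hx =>
    hz x ((le_sup_right (a := LL F)) (Submodule.subset_span hx))
  have hzy1 : lam y1 = 0 := by
    have h2 := hz1 _ heK
    rw [← Finset.sum_erase_add _ _ hy1, map_add, map_sum] at h2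
    have h3 : ∑ x ∈ K.erase y1, lam (b x • x) = 0 := by
      apply Finset.sum_eq_zero
      intro x hx
      obtain ⟨h4, h5⟩ := Finset.mem_erase.mp hx
      rw [map_smul, hz2 x (Finset.mem_erase.mpr ⟨h4, Finset.mem_erase.mpr
        ⟨fun h => hy0K (h ▸ h5), hKP h5⟩⟩), smul_zero]
    rw [h3, zero_add, map_smul, smul_eq_mul] at h2
    exact (mul_eq_zero.mp h2).resolve_left (hb y1 hy1).ne'
  have hz3 : ∀ x ∈ P, x ≠ y0 → lam x = 0 := by
    intro x hx hx0
    by_cases hx1 : x = y1
    · rw [hx1]; exact hzy1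
    · exact hz2 x (Finset.mem_erase.mpr ⟨hx1, Finset.mem_erase.mpr ⟨hx0, hx⟩⟩)
  rcases le_total 0 (lam y0) with h2 | h2
  · refine no_half hX hr hF he hmax hP hPcard lam hne hz1 ?_
    intro x hx
    by_cases hxy : x = y0
    · rw [hxy]; exact h2
    · rw [hz3 x hx hxy]
  · refine no_half hX hr hF he hmax hP hPcard (-lam) (neg_ne_zero.mpr hne) ?_ ?_
    · intro v hv
      rw [LinearMap.neg_apply, hz1 v hv, neg_zero]
    · intro x hx
      by_cases hxy : x = y0
      · rw [hxy, LinearMap.neg_apply]; linarith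
      · rw [LinearMap.neg_apply, hz3 x hx hxy, neg_zero]

end ext

end Pool.Agent.RY
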