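import Pool.Agent.Lib_helper86.KL.Geo
import Pool.Agent.Lib_helper10.RY.End

/-!
From states to Tverberg sets.
-/

set_option linter.unusedSectionVars false

namespace Pool.Agent.RY

open scoped BigOperators Topology
open Module Filter Pool.Agent

section geom

variable {d : ℕ}

/-- the lift `x ↦ (x, 1)` -/
def lf (d : ℕ) : (Fin d → ℝ) ↪ (Fin d → ℝ) × ℝ :=
  ⟨fun x => (x, 1), fun _ _ h => congrArg Prod.fst h⟩

@[simp] lemma lf_apply (x : Fin d → ℝ) : lf d x = (x, 1) := rfl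

lemma finrank_lift : finrank ℝ ((Fin d → ℝ) × ℝ) = d + 1 := by
  rw [Module.finrank_prod, Module.finrank_fin_fun, Module.finrank_self]

/-- general position in the affine sense -/
def GP (X : Finset (Fin d → ℝ)) : Prop :=
  ∀ S ⊆ X, S.card ≤ d + 1 → AffineIndependent ℝ (fun x : {x // x ∈ S} => (x : Fin d → ℝ))

lemma gen_of_GP {X : Finset (Fin d → ℝ)} (h : GP X) : Gen (X.map (lf d)) := by
  classical
  constructor
  · intro S hS hcard
    rw [finrank_lift] at hcard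
    obtain ⟨S', hS', rfl⟩ := Finset.subset_map_iff.mp hS
    rw [Finset.card_map] at hcard
    have h1 := h S' hS' hcard
    rw [Fintype.linearIndependent_iff]
    intro g hg
    have h2 : ∑ x ∈ S'.map (lf d), (if hx : x ∈ S'.map (lf d) then g ⟨x, hx⟩ else 0) • x = 0 := by
      rw [← hg, ← Finset.sum_coe_sort (S'.map (lf d))]
      exact Finset.sum_congr rfl fun x _ => by simp only [Finset.coe_mem, dif_pos, Subtype.coe_eta]
    rw [Finset.sum_map] at h2
    set w : (Fin d → ℝ) → ℝ := fun x => if hx : lf d x ∈ S'.map (lf d) then g ⟨lf d x, hx⟩ else 0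
      with hw
    have h2' : ∑ x ∈ S', w x • lf d x = 0 := h2
    have h3 : ∑ x ∈ S', w x • (x : Fin d → ℝ) = 0 := by
      have := congrArg Prod.fst h2'
      rw [Prod.fst_sum] at this
      exact this
    have h4 : ∑ x ∈ S', w x = 0 := by
      have := congrArg Prod.snd h2'
      rw [Prod.snd_sum] at this
      simpa using this
    rw [affineIndependent_iff] at h1
    have h5 := h1 Finset.univ (fun x => w x) ((Finset.sum_coe_sort S' w).trans h4)
      ((Finset.sum_coe_sort S' (fun x => w x • x)).trans h3)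
    rintro ⟨y, hy⟩
    obtain ⟨x, hx, rfl⟩ := Finset.mem_map.mp hy
    have h6 := h5 ⟨x, hx⟩ (Finset.mem_univ _)
    simp only [hw, hy, dif_pos] at h6
    exact h6
  · refine ⟨LinearMap.snd ℝ (Fin d → ℝ) ℝ, ?_⟩
    intro x hx
    obtain ⟨y, _, rfl⟩ := Finset.mem_map.mp hx
    simp

/-- a common interior point gives the dimension of a Tverberg set -/
theorem dimT_ge {r : ℕ} (hr : 1 ≤ r) (X : Finset (Fin d → ℝ))
    (F : Fin r → Finset ((Fin d → ℝ) × ℝ)) (hsub : ∀ j, F j ⊆ X.map (lf d))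
    (hdisj : ∀ i j, i ≠ j → Disjoint (F i) (F j)) (z : (Fin d → ℝ) × ℝ)
    (hz : ∀ j, Rel (F j) z) (W : Submodule ℝ ((Fin d → ℝ) × ℝ))
    (hW : ∀ j, W ≤ Submodule.span ℝ (F j : Set ((Fin d → ℝ) × ℝ))) (hk : 1 ≤ finrank ℝ W) :
    (finrank ℝ W : ℤ) - 1 ≤ KL.dimT r X := by
  classical
  have hsnd : ∀ j, ∀ x ∈ F j, x.2 = 1 := by
    intro j x hx
    obtain ⟨y, _, rfl⟩ := Finset.mem_map.mp (hsub j hx)
    rfl
  have hne : ∀ j, (F j).Nonempty := by
    intro j
    rw [Finset.nonempty_iff_ne_empty]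
    intro h
    have h1 := hW j
    rw [h, Finset.coe_empty, Submodule.span_empty, le_bot_iff] at h1
    rw [h1, finrank_bot] at hk
    omega
  have hzpos : 0 < z.2 := by
    obtain ⟨α, hα, hαz⟩ := hz ⟨0, hr⟩
    rw [← hαz, Prod.snd_sum]
    apply Finset.sum_pos _ (hne ⟨0, hr⟩)
    intro x hx
    rw [Prod.smul_snd, hsnd _ x hx, smul_eq_mul, mul_one]
    exact hα x hx
  let c : (Fin d → ℝ) → Fin r := fun x => if h : ∃ j, lf d x ∈ F j then h.choose else ⟨0, hr⟩
  have hc : ∀ j x, lf d x ∈ F j → c x = j := by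
    intro j x hx
    have h : ∃ j, lf d x ∈ F j := ⟨j, hx⟩
    simp only [c, dif_pos h]
    by_contra hne
    exact (Finset.disjoint_left.mp (hdisj _ j hne)) h.choose_spec hx
  -- points of the cell
  have hcell : ∀ p : (Fin d → ℝ) × ℝ, 0 < p.2 → (∀ j, Rel (F j) p) →
      p.2⁻¹ • p.1 ∈ KL.cell X c := by
    intro p hp hrel
    refine Set.mem_iInter.mpr fun j => ?_
    obtain ⟨α, hα, rfl⟩ := hrel j
    rw [Prod.fst_sum, Prod.snd_sum] at *
    have h1 : ∑ x ∈ F j, (α x • x).2 = ∑ x ∈ F j, α x :=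
      Finset.sum_congr rfl fun x hx => by rw [Prod.smul_snd, hsnd _ x hx, smul_eq_mul, mul_one]
    rw [h1] at hp ⊢
    have h2 : (∑ x ∈ F j, α x)⁻¹ • ∑ x ∈ F j, (α x • x).1
        = ∑ x ∈ F j, ((∑ x ∈ F j, α x)⁻¹ * α x) • x.1 := by
      rw [Finset.smul_sum]
      exact Finset.sum_congr rfl fun x _ => by rw [Prod.smul_fst, mul_smul]
    rw [h2]
    refine (convex_convexHull ℝ _).sum_mem ?_ ?_ ?_
    · intro x hx
      exact mul_nonneg (inv_nonneg.mpr hp.le) (hα x hx).le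
    · rw [← Finset.mul_sum, inv_mul_cancel₀ hp.ne']
    · intro x hx
      apply subset_convexHull
      obtain ⟨y, hy, rfl⟩ := Finset.mem_map.mp (hsub j hx)
      exact ⟨hy, hc j y hx⟩
  have hz0 : z.2⁻¹ • z.1 ∈ KL.cell X c := hcell z hzpos hz
  -- the horizontal part
  set W0 := W ⊓ LinearMap.ker (LinearMap.snd ℝ (Fin d → ℝ) ℝ) with hW0
  have hfr : finrank ℝ W ≤ finrank ℝ W0 + 1 := by
    have hne' : (LinearMap.snd ℝ (Fin d → ℝ) ℝ : Dual ℝ ((Fin d → ℝ) × ℝ)) ≠ 0 := by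
      intro h
      have := congrArg (fun f : Dual ℝ ((Fin d → ℝ) × ℝ) => f (0, 1)) h
      simp at this
    have h1 := Dual.finrank_ker_add_one_of_ne_zero hne'
    have h2 := Submodule.finrank_sup_add_finrank_inf_eq W
      (LinearMap.ker (LinearMap.snd ℝ (Fin d → ℝ) ℝ))
    rw [← hW0] at h2
    have h3 := Submodule.finrank_le (W ⊔ LinearMap.ker (LinearMap.snd ℝ (Fin d → ℝ) ℝ))
    omega
  have hmap : ∀ v ∈ W0, v.1 ∈ vectorSpan ℝ (KL.cell X c) := by
    rintro v ⟨hv, hv0⟩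
    have hv0' : v.2 = 0 := hv0
    obtain ⟨ε, h1, h2⟩ := ((eventually_all.mpr fun j => ev_rel (hz j) (hW j hv)).and
      self_mem_nhdsWithin).exists
    have h2' : 0 < ε := h2
    have hs : (z + ε • v).2 = z.2 := by
      rw [Prod.snd_add, Prod.smul_snd, hv0', smul_zero, add_zero]
    have h3 := hcell (z + ε • v) (by rw [hs]; exact hzpos) h1
    rw [hs] at h3
    have h4 := vsub_mem_vectorSpan ℝ h3 hz0
    rw [vsub_eq_sub, ← smul_sub, Prod.fst_add, add_sub_cancel_left, Prod.smul_fst, smul_smul]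
      at h4
    have h5 := Submodule.smul_mem _ ((z.2⁻¹ * ε)⁻¹) h4
    rwa [smul_smul, inv_mul_cancel₀ (mul_pos (inv_pos.mpr hzpos) h2').ne', one_smul] at h5
  have hfin : finrank ℝ W0 ≤ finrank ℝ (vectorSpan ℝ (KL.cell X c)) := by
    let f : W0 →ₗ[ℝ] vectorSpan ℝ (KL.cell X c) :=
      LinearMap.codRestrict _ ((LinearMap.fst ℝ (Fin d → ℝ) ℝ) ∘ₗ W0.subtype)
        (fun v => hmap v v.2)
    apply LinearMap.finrank_le_finrank_of_injective (f := f)
    intro v w h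
    have h1 : (v : (Fin d → ℝ) × ℝ).1 = (w : (Fin d → ℝ) × ℝ).1 :=
      congrArg (fun t : vectorSpan ℝ (KL.cell X c) => (t : Fin d → ℝ)) h
    have h2 : (v : (Fin d → ℝ) × ℝ).2 = 0 := v.2.2
    have h3 : (w : (Fin d → ℝ) × ℝ).2 = 0 := w.2.2
    apply Subtype.ext
    exact Prod.ext h1 (h2.trans h3.symm)
  have hadim : (finrank ℝ (vectorSpan ℝ (KL.cell X c)) : ℤ) = KL.adim (KL.cell X c) := by
    unfold KL.adim
    rw [if_neg (Set.nonempty_iff_ne_empty.mp ⟨_, hz0⟩)]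
  have h1 := KL.le_dimT hr X c
  have h2 : finrank ℝ W ≤ finrank ℝ (vectorSpan ℝ (KL.cell X c)) + 1 := by omega
  rw [← hadim] at h1
  have h3 : (finrank ℝ W : ℤ) ≤ (finrank ℝ (vectorSpan ℝ (KL.cell X c)) : ℤ) + 1 := by
    exact_mod_cast h2
  linarith

lemma dimT_ge_state {r : ℕ} (hr : 1 ≤ r) {X : Finset (Fin d → ℝ)}
    {F : Fin r → Finset ((Fin d → ℝ) × ℝ)} (hF : St (X.map (lf d)) F)
    (hk : 1 ≤ finrank ℝ (LL F)) : (finrank ℝ (LL F) : ℤ) - 1 ≤ KL.dimT r X := by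
  obtain ⟨z, hz⟩ := hF.pos
  exact dimT_ge hr X F hF.sub hF.disj z hz (LL F) (fun j => iInf_le _ j) hk

/-- separation -/
lemma sep {V : Type*} [AddCommGroup V] [Module ℝ V] [FiniteDimensional ℝ V] (P : Finset V)
    (h : ∀ lam : Dual ℝ V, ∃ x ∈ P, lam x ≤ 0) :
    ∃ w : V → ℝ, (∀ x ∈ P, 0 ≤ w x) ∧ ∑ x ∈ P, w x = 1 ∧ ∑ x ∈ P, w x • x = 0 := by
  classical
  let e : V ≃ₗ[ℝ] (Fin (finrank ℝ V) → ℝ) := (finBasis ℝ V).equivFun
  by_cases h0 : (0 : Fin (finrank ℝ V) → ℝ) ∈ convexHull ℝ ((P.image e : Finset _) : Set _)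
  · rw [Finset.mem_convexHull'] at h0
    obtain ⟨w, hw, hs, hz⟩ := h0
    rw [Finset.sum_image (fun x _ y _ h => e.injective h)] at hs hz
    refine ⟨fun x => w (e x), fun x hx => hw _ (Finset.mem_image_of_mem _ hx), hs, ?_⟩
    apply e.injective
    rw [map_sum, map_zero, ← hz]
    exact Finset.sum_congr rfl fun x _ => by rw [map_smul]
  · exfalso
    obtain ⟨f, u, hf1, hf2⟩ := geometric_hahn_banach_point_closed (convex_convexHull ℝ _)
      ((Finset.finite_toSet (P.image e)).isClosed_convexHull ℝ) h0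
    obtain ⟨x, hx, hx0⟩ := h (f.toLinearMap ∘ₗ e.toLinearMap)
    have h1 := hf2 (e x) (subset_convexHull ℝ _ (by
      have := Finset.mem_image_of_mem e hx
      exact_mod_cast this))
    rw [map_zero] at hf1
    have h2 : f (e x) ≤ 0 := hx0
    linarith

end geom

end Pool.Agent.RY
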