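import Pool.Agent.Lib_helper10.RY.Mono

/-!
In a state with maximal intersection the rest lies in no half space.
-/

set_option linter.unusedSectionVars false

namespace Pool.Agent.RY

open scoped BigOperators Topology
open Module Filter

section half

variable {V : Type*} [AddCommGroup V] [Module ℝ V] [FiniteDimensional ℝ V] {r : ℕ}

/-- no half space -/
theorem no_half {X : Finset V} (hX : Gen X) (hr : 0 < r) {F : Fin r → Finset V} (hF : St X F)
    (he : finrank ℝ (MM (UU F) ⊤) < (pool X F).card)
    (hmax : ∀ F' : Fin r → Finset V, St X F' → finrank ℝ (LL F') ≤ finrank ℝ (LL F))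
    {P : Finset V} (hP : P ⊆ pool X F) (hcard : P.card = finrank ℝ (MM (UU F) ⊤) + 1)
    (lam : Dual ℝ V) (hne : lam ≠ 0) (hL : ∀ v ∈ LL F, lam v = 0) (hpos : ∀ x ∈ P, 0 ≤ lam x) :
    False := by
  classical
  set H := LinearMap.ker lam with hH
  have hPX : P ⊆ X := fun x hx => (mem_pool.mp (hP hx)).1
  have hHfr : finrank ℝ H + 1 = finrank ℝ V := Dual.finrank_ker_add_one_of_ne_zero hne
  have hLH : (H ⊓ ⨅ j, UU F j : Submodule ℝ V) = LL F := by
    apply le_antisymm inf_le_right
    exact le_inf (fun v hv => hL v hv) le_rfl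
  have hLT : ((⊤ : Submodule ℝ V) ⊓ ⨅ j, UU F j : Submodule ℝ V) = LL F := by
    rw [top_inf_eq]; rfl
  have hfH := finrank_MM hr (UU F) H
  have hfT := finrank_MM hr (UU F) ⊤
  rw [hLH] at hfH
  rw [hLT, finrank_top] at hfT
  have hcardH : P.card = finrank ℝ (MM (UU F) H) := by omega
  -- injectivity
  have hinj : ∀ c, (F c).card < finrank ℝ V →
      ∀ v, (∀ i, i ≠ c → v ∈ UU F i) → v ∈ UU F c := by
    intro c hc
    have hne : UU F c ≠ ⊤ := by
      intro h
      have h1 := hX.finrank_span (hF.sub c) hc.le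
      have h2 : finrank ℝ (UU F c) = (F c).card := h1
      rw [h, finrank_top] at h2
      omega
    obtain ⟨K, _, _, _, _, _, h⟩ := mono_step hX hF c hne he hmax
    exact h
  obtain ⟨s0, hs0⟩ := rado_MM hr (UU F) H P (by
    intro T hT hTne
    have hTX : T ⊆ X := hT.trans hPX
    have hTpos : 0 < T.card := Finset.card_pos.mpr hTne
    by_cases h : ∃ c, (F c).card + T.card ≤ finrank ℝ V
    · obtain ⟨c, hc⟩ := h
      have hdj : Disjoint (F c) T := by
        rw [Finset.disjoint_left]
        intro x hx hx'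
        exact (mem_pool.mp (hP (hT hx'))).2 c hx
      have hd := hX.disj_span (hF.sub c) hTX hdj hc
      have hli : LinearIndependent ℝ (fun x : {x // x ∈ T} => io (UU F) H c (x : V)) := by
        rw [Fintype.linearIndependent_iff]
        intro g hg
        have h1 : io (UU F) H c (∑ x : {x // x ∈ T}, g x • (x : V)) = 0 := by
          rw [map_sum, ← hg]
          exact Finset.sum_congr rfl fun x _ => by rw [map_smul]
        rw [io_eq_zero_iff] at h1
        obtain ⟨w, _, hw1, hw2⟩ := h1
        have h2 : w ∈ UU F c := hinj c (by omega) w hw2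
        have h3 : ∑ x : {x // x ∈ T}, g x • (x : V) ∈ UU F c := by
          have := (UU F c).add_mem hw1 h2
          simpa using this
        have h4 : ∑ x : {x // x ∈ T}, g x • (x : V) ∈ Submodule.span ℝ (T : Set V) :=
          Submodule.sum_mem _ fun x _ => Submodule.smul_mem _ _ (Submodule.subset_span x.2)
        have h5 := Submodule.disjoint_def.mp hd _ h3 h4
        exact Fintype.linearIndependent_iff.mp (hX.ind T hTX (by omega)) g h5
      have h1 := finrank_span_eq_card hli
      rw [Fintype.card_coe] at h1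
      rw [← h1]
      apply Submodule.finrank_mono
      apply Submodule.span_mono
      rintro _ ⟨x, rfl⟩
      exact ⟨x, x.2, c, rfl⟩
    · push Not at h
      have htop : Submodule.span ℝ {v : MM (UU F) H | ∃ x ∈ T, ∃ c, io (UU F) H c x = v} = ⊤ := by
        rw [eq_top_iff]
        intro v _
        obtain ⟨w, rfl⟩ := Submodule.mkQ_surjective _ v
        rw [← sum_io]
        refine Submodule.sum_mem _ fun j _ => ?_
        have h1 : Submodule.span ℝ ((F j ∪ T : Finset V) : Set V) = ⊤ := by
          apply hX.span_eq_top (Finset.union_subset (hF.sub j) hTX)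
          have hdj : Disjoint (F j) T := by
            rw [Finset.disjoint_left]
            intro x hx hx'
            exact (mem_pool.mp (hP (hT hx'))).2 j hx
          rw [Finset.card_union_of_disjoint hdj]
          exact (h j).le
        have h2 : w j ∈ Submodule.span ℝ ((F j ∪ T : Finset V) : Set V) := by
          rw [h1]; trivial
        obtain ⟨b, hb⟩ := mem_span_iff.mp h2
        rw [← hb, map_sum]
        refine Submodule.sum_mem _ fun x hx => ?_
        rw [map_smul]
        apply Submodule.smul_mem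
        rcases Finset.mem_union.mp hx with hx | hx
        · rw [io_eq_zero_of_mem (Submodule.subset_span hx)]
          exact Submodule.zero_mem _
        · exact Submodule.subset_span ⟨x, hx, j, rfl⟩
      rw [htop, finrank_top, ← hcardH]
      exact Finset.card_le_card hT)
  obtain ⟨e, he1⟩ : ∃ e, lam e = 1 := by
    obtain ⟨v, hv⟩ : ∃ v, lam v ≠ 0 := by
      by_contra hcon
      push Not at hcon
      exact hne (LinearMap.ext hcon)
    exact ⟨(lam v)⁻¹ • v, by rw [map_smul, smul_eq_mul, inv_mul_cancel₀ hv]⟩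
  obtain ⟨s, a, hli, ha, hsum⟩ := cov_MM (UU F) H P hcardH ((NN (UU F) H).mkQ (dg V r e)) (by
    intro x hx
    refine ⟨lam x, hpos x hx, ?_⟩
    rw [← map_smul, ← sub_eq_zero, ← map_sub, mk_eq_zero]
    refine ⟨x - lam x • e, ?_, fun j => ?_⟩
    · rw [hH, LinearMap.mem_ker, map_sub, map_smul, he1]
      simp
    · simp) s0 hs0
  obtain ⟨h, hh, hu⟩ := col_eq (UU F) H P s a e hsum
  have hsp := span_mono_quot (U' := UU F) (H' := ⊤) (Q' := P) (fun j => le_rfl) le_top
    (fun x hx => Or.inl hx) (span_of_li (UU F) H P s hcardH hli)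
  let F' : Fin r → Finset V := fun j => F j ∪ P.filter (fun x => s x = j ∧ 0 < a x)
  have hF' : ∀ j x, x ∈ F' j ↔ x ∈ F j ∨ (x ∈ P ∧ s x = j ∧ 0 < a x) := by
    intro j x
    simp [F']
  obtain ⟨hSt, huL, hLL⟩ := advance hF hP s a ha (e + h) hu hsp F' hF'
  have hLeq : LL F = LL F' := Submodule.eq_of_le_of_finrank_le hLL (hmax F' hSt)
  rw [← hLeq] at huL
  have h1 := hL _ huL
  have h2 : lam h = 0 := hh
  rw [map_add, he1, h2] at h1
  norm_num at h1

/-- hence the quotient is large -/
theorem quot_large {X : Finset V} (hX : Gen X) (hr : 0 < r) {F : Fin r → Finset V} (hF : St X F)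
    (he : finrank ℝ (MM (UU F) ⊤) < (pool X F).card)
    (hmax : ∀ F' : Fin r → Finset V, St X F' → finrank ℝ (LL F') ≤ finrank ℝ (LL F)) :
    finrank ℝ V ≤ finrank ℝ (MM (UU F) ⊤) + finrank ℝ (LL F) := by
  classical
  by_contra hcon
  push Not at hcon
  obtain ⟨P, hP, hcard⟩ := Finset.exists_subset_card_eq
    (show finrank ℝ (MM (UU F) ⊤) + 1 ≤ (pool X F).card from he)
  obtain ⟨y, hy⟩ : P.Nonempty := Finset.card_pos.mp (by omega)
  set W := LL F ⊔ Submodule.span ℝ ((P.erase y : Finset V) : Set V) with hW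
  have h1 : finrank ℝ W < finrank ℝ V := by
    have h2 := Submodule.finrank_add_le_finrank_add_finrank (LL F)
      (Submodule.span ℝ ((P.erase y : Finset V) : Set V))
    have h3 := finrank_span_finset_le_card (R := ℝ) (P.erase y)
    rw [Finset.card_erase_of_mem hy] at h3
    have h4 : finrank ℝ W ≤ finrank ℝ (LL F)
      + finrank ℝ (Submodule.span ℝ ((P.erase y : Finset V) : Set V)) := h2
    have h5 : finrank ℝ (Submodule.span ℝ ((P.erase y : Finset V) : Set V)) ≤ P.card - 1 := h3
    omega
  obtain ⟨lam, hne, hlam⟩ := Submodule.exists_dual_map_eq_bot_of_lt_top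
    (Submodule.lt_top_of_finrank_lt_finrank h1) inferInstance
  have hz : ∀ v ∈ W, lam v = 0 := by
    intro v hv
    have : lam v ∈ W.map lam := ⟨v, hv, rfl⟩
    rw [hlam] at this
    simpa using this
  have hz1 : ∀ v ∈ LL F, lam v = 0 := fun v hv => hz v (le_sup_left (a := LL F) hv)
  have hz2 : ∀ x ∈ P, x ≠ y → lam x = 0 := fun x hx hxy =>
    hz x ((le_sup_right (a := LL F)) (Submodule.subset_span (Finset.mem_erase.mpr ⟨hxy, hx⟩)))
  rcases le_total 0 (lam y) with h2 | h2
  · refine no_half hX hr hF he hmax hP hcard lam hne hz1 ?_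
    intro x hx
    by_cases hxy : x = y
    · rw [hxy]; exact h2
    · rw [hz2 x hx hxy]
  · refine no_half hX hr hF he hmax hP hcard (-lam) (neg_ne_zero.mpr hne) ?_ ?_
    · intro v hv
      rw [LinearMap.neg_apply, hz1 v hv, neg_zero]
    · intro x hx
      by_cases hxy : x = y
      · rw [hxy, LinearMap.neg_apply]; linarith
      · rw [LinearMap.neg_apply, hz2 x hx hxy, neg_zero]

end half

end Pool.Agent.RY
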