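import Pool.Agent.Lib_helper10.RY.State

/-!
General position, and the monochromatic alternative.
-/

set_option linter.unusedSectionVars false

namespace Pool.Agent.RY

open scoped BigOperators Topology
open Module Filter

section mono

variable {V : Type*} [AddCommGroup V] [Module ℝ V] [FiniteDimensional ℝ V] {r : ℕ}

/-- general position and acyclicity -/
structure Gen (X : Finset V) : Prop where
  ind : ∀ S ⊆ X, S.card ≤ finrank ℝ V → LinearIndependent ℝ (fun x : {x // x ∈ S} => (x : V))
  acyc : ∃ l : Dual ℝ V, ∀ x ∈ X, 0 < l x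

lemma range_coe (S : Finset V) : Set.range (fun x : {x // x ∈ S} => (x : V)) = (S : Set V) := by
  ext x; simp

lemma Gen.finrank_span {X : Finset V} (hX : Gen X) {S : Finset V} (hS : S ⊆ X)
    (h : S.card ≤ finrank ℝ V) : finrank ℝ (Submodule.span ℝ (S : Set V)) = S.card := by
  have h1 := finrank_span_eq_card (hX.ind S hS h)
  rw [range_coe, Fintype.card_coe] at h1
  exact h1

lemma Gen.span_eq_top {X : Finset V} (hX : Gen X) {S : Finset V} (hS : S ⊆ X)
    (h : finrank ℝ V ≤ S.card) : Submodule.span ℝ (S : Set V) = ⊤ := by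
  obtain ⟨S', hS', hcard⟩ := Finset.exists_subset_card_eq h
  have h1 := hX.finrank_span (hS'.trans hS) hcard.le
  have h2 : Submodule.span ℝ (S' : Set V) = ⊤ := Submodule.eq_top_of_finrank_eq (by rw [h1, hcard])
  rw [eq_top_iff, ← h2]
  exact Submodule.span_mono (by exact_mod_cast hS')

lemma Gen.card_lt {X : Finset V} (hX : Gen X) {S : Finset V} (hS : S ⊆ X)
    (h : Submodule.span ℝ (S : Set V) ≠ ⊤) : S.card < finrank ℝ V := by
  by_contra hcon
  exact h (hX.span_eq_top hS (not_lt.mp hcon))

/-- coefficients of a relation on an independent set vanish -/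
lemma coeff_zero {S : Finset V} (h : LinearIndependent ℝ (fun x : {x // x ∈ S} => (x : V)))
    (b : V → ℝ) (hb : ∑ x ∈ S, b x • x = 0) : ∀ x ∈ S, b x = 0 := by
  intro x hx
  have h1 := Fintype.linearIndependent_iff.mp h (fun x => b x)
    ((Finset.sum_coe_sort S (fun x => b x • x)).trans hb) ⟨x, hx⟩
  exact h1

lemma Gen.disj_span {X : Finset V} (hX : Gen X) {S T : Finset V} (hS : S ⊆ X) (hT : T ⊆ X)
    (hd : Disjoint S T) (h : S.card + T.card ≤ finrank ℝ V) :
    Disjoint (Submodule.span ℝ (S : Set V)) (Submodule.span ℝ (T : Set V)) := by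
  classical
  rw [Submodule.disjoint_def]
  intro v h1 h2
  obtain ⟨a, ha⟩ := mem_span_iff.mp h1
  obtain ⟨b, hb⟩ := mem_span_iff.mp h2
  have h3 : LinearIndependent ℝ (fun x : {x // x ∈ S ∪ T} => (x : V)) := by
    apply hX.ind _ (Finset.union_subset hS hT)
    rw [Finset.card_union_of_disjoint hd]
    exact h
  have h4 := coeff_zero h3 (fun x => if x ∈ S then a x else - b x) (by
    rw [Finset.sum_union hd]
    have e1 : ∑ x ∈ S, (if x ∈ S then a x else - b x) • x = v := by
      rw [← ha]
      exact Finset.sum_congr rfl fun x hx => by rw [if_pos hx]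
    have e2 : ∑ x ∈ T, (if x ∈ S then a x else - b x) • x = - v := by
      rw [← hb, ← Finset.sum_neg_distrib]
      exact Finset.sum_congr rfl fun x hx => by
        rw [if_neg (fun h => (Finset.disjoint_left.mp hd) h hx), neg_smul]
    rw [e1, e2, add_neg_cancel])
  rw [← ha]
  apply Finset.sum_eq_zero
  intro x hx
  have := h4 x (Finset.mem_union_left _ hx)
  simp only [hx, if_true] at this
  rw [this, zero_smul]

/-- independence modulo a subspace -/
lemma card_le_of_li {W : Type*} [AddCommGroup W] [Module ℝ W] [FiniteDimensional ℝ W]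
    (f : V →ₗ[ℝ] W) (S : Finset V)
    (h : LinearIndependent ℝ (fun x : {x // x ∈ S} => f (x : V))) :
    S.card + finrank ℝ (LinearMap.ker f) ≤ finrank ℝ V := by
  have h1 : S.card ≤ finrank ℝ (LinearMap.range f) := by
    let g : {x // x ∈ S} → LinearMap.range f := fun x => ⟨f (x : V), ⟨x, rfl⟩⟩
    have hg : LinearIndependent ℝ g := by
      apply LinearIndependent.of_comp (LinearMap.range f).subtype
      exact h
    have := hg.fintype_card_le_finrank
    rwa [Fintype.card_coe] at this
  have h2 := LinearMap.finrank_range_add_finrank_ker f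
  omega

/-- coefficients of a coloured relation on an independent coloured family vanish -/
lemma coeff_li (U : Fin r → Submodule ℝ V) (H : Submodule ℝ V) (Q : Finset V) (s : V → Fin r)
    (h : LinearIndependent ℝ (fun x : {x // x ∈ Q} => io U H (s x) (x : V)))
    (b : V → ℝ) (hb : ∑ x ∈ Q, b x • io U H (s x) x = 0) : ∀ x ∈ Q, b x = 0 := by
  intro x hx
  have h1 := Fintype.linearIndependent_iff.mp h (fun x => b x)
    ((Finset.sum_coe_sort Q (fun x => b x • io U H (s x) x)).trans hb) ⟨x, hx⟩
  exact h1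

open Classical in
/-- either the dimension can be increased, or there is a monochromatic circuit for every colour -/
theorem mono_step {X : Finset V} (hX : Gen X) {F : Fin r → Finset V} (hF : St X F)
    (c : Fin r) (hc : UU F c ≠ ⊤) (he : finrank ℝ (MM (UU F) ⊤) < (pool X F).card)
    (hmax : ∀ F' : Fin r → Finset V, St X F' → finrank ℝ (LL F') ≤ finrank ℝ (LL F)) :
    ∃ K ⊆ pool X F, K.Nonempty ∧ K.card + (F c).card = finrank ℝ V + 1 ∧
      St X (Function.update F c (F c ∪ K)) ∧
      (∃ b : V → ℝ, (∀ x ∈ K, 0 < b x) ∧ ∑ x ∈ K, b x • x ∈ UU F c) ∧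
      (∀ v, (∀ i, i ≠ c → v ∈ UU F i) → v ∈ UU F c) := by
  obtain ⟨s0, hs0⟩ := hF.span
  obtain ⟨Q, hQP, hQcard, hQli, hQsp⟩ := exists_basis_sub _ _ _ _ hs0
  obtain ⟨y, hyP, hyQ⟩ : ∃ y ∈ pool X F, y ∉ Q := by
    by_contra hcon
    push Not at hcon
    have := Finset.card_le_card (fun x hx => hcon x hx : pool X F ⊆ Q)
    omega
  obtain ⟨s1, a1, hli1, ha1, hsum1⟩ := cov_MM (UU F) ⊤ Q hQcard (- io (UU F) ⊤ c y) (by
    intro x _
    refine ⟨0, le_rfl, ?_⟩
    rw [zero_smul, mk_eq_zero]
    exact ⟨x, trivial, fun j => by simp⟩) s0 hQli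
  set R := insert y Q with hR
  let s : V → Fin r := fun x => if x = y then c else s1 x
  let a : V → ℝ := fun x => if x = y then 1 else a1 x
  have hxy : ∀ x ∈ Q, x ≠ y := fun x hx h => hyQ (h ▸ hx)
  have hsQ : ∀ x ∈ Q, s x = s1 x := fun x hx => by simp only [s, if_neg (hxy x hx)]
  have haQ : ∀ x ∈ Q, a x = a1 x := fun x hx => by simp only [a, if_neg (hxy x hx)]
  have hsy : s y = c := by simp only [s, if_true]
  have hay : a y = 1 := by simp only [a, if_true]
  have hRP : R ⊆ pool X F := by
    intro x hx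
    rcases Finset.mem_insert.mp hx with rfl | hx
    · exact hyP
    · exact hQP hx
  have haR : ∀ x ∈ R, 0 ≤ a x := by
    intro x hx
    rcases Finset.mem_insert.mp hx with rfl | hx
    · rw [hay]; exact zero_le_one
    · rw [haQ x hx]; exact ha1 x hx
  have hsumR : ∑ x ∈ R, a x • io (UU F) ⊤ (s x) x = 0 := by
    rw [hR, Finset.sum_insert hyQ, hay, hsy, one_smul]
    have : ∑ x ∈ Q, a x • io (UU F) ⊤ (s x) x = ∑ x ∈ Q, a1 x • io (UU F) ⊤ (s1 x) x :=
      Finset.sum_congr rfl fun x hx => by rw [haQ x hx, hsQ x hx]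
    rw [this, hsum1, add_neg_cancel]
  obtain ⟨u, _, hu⟩ := col_eq (UU F) ⊤ R s a 0 (by rw [hsumR, map_zero, map_zero])
  simp only [zero_add] at hu
  -- spanning
  have hspR : Submodule.span ℝ {v : MM (UU F) ⊤ | ∃ x ∈ R, io (UU F) ⊤ (s x) x = v} = ⊤ := by
    rw [eq_top_iff, ← span_of_li (UU F) ⊤ Q s1 hQcard hli1]
    apply Submodule.span_mono
    rintro _ ⟨x, hx, rfl⟩
    exact ⟨x, Finset.mem_insert_of_mem hx, by rw [hsQ x hx]⟩
  let F' : Fin r → Finset V := fun j => F j ∪ R.filter (fun x => s x = j ∧ 0 < a x)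
  have hF' : ∀ j x, x ∈ F' j ↔ x ∈ F j ∨ (x ∈ R ∧ s x = j ∧ 0 < a x) := by
    intro j x
    simp [F']
  obtain ⟨hSt, huL, hLL⟩ := advance hF hRP s a haR u hu hspR F' hF'
  -- no gain
  have hLeq : LL F = LL F' := Submodule.eq_of_le_of_finrank_le hLL (hmax F' hSt)
  rw [← hLeq] at huL
  have huj : ∀ j, u ∈ UU F j := fun j => (Submodule.mem_iInf _).mp huL j
  have hcls : ∀ j, ∑ x ∈ R.filter (fun x => s x = j), a x • x ∈ UU F j := by
    intro j
    have := (UU F j).add_mem (hu j) (huj j)
    simpa using this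
  -- other colours vanish
  have hzero : ∀ x ∈ Q, s x ≠ c → a x = 0 := by
    have h1 : ∀ j, j ≠ c → ∀ x ∈ Q, s x = j → a x = 0 := by
      intro j hj
      have h2 : R.filter (fun x => s x = j) = Q.filter (fun x => s x = j) := by
        rw [hR, Finset.filter_insert, if_neg]
        rw [hsy]; exact fun h => hj h.symm
      have h3 := hcls j
      rw [h2] at h3
      have h4 := io_eq_zero_of_mem (U := UU F) (H := ⊤) (j := j) h3
      rw [map_sum] at h4
      have h5 := coeff_li (UU F) ⊤ Q s1 hli1 (fun x => if s x = j then a x else 0) (by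
        rw [← h4, Finset.sum_filter]
        refine Finset.sum_congr rfl fun x hx => ?_
        by_cases h : s x = j
        · rw [if_pos h, if_pos h, map_smul, ← hsQ x hx, h]
        · rw [if_neg h, if_neg h, zero_smul])
      intro x hx hsx
      have := h5 x hx
      simpa [hsx] using this
    intro x hx hsx
    exact h1 (s x) hsx x hx rfl
  set K := R.filter (fun x => s x = c ∧ 0 < a x) with hK
  have hyK : y ∈ K := by
    rw [hK, Finset.mem_filter]
    exact ⟨Finset.mem_insert_self _ _, hsy, by rw [hay]; exact one_pos⟩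
  have hKP : K ⊆ pool X F := (Finset.filter_subset _ _).trans hRP
  have hKX : K ⊆ X := fun x hx => (mem_pool.mp (hKP hx)).1
  have hFupd : F' = Function.update F c (F c ∪ K) := by
    funext j
    by_cases hj : j = c
    · subst hj
      simp [F', hK]
    · rw [Function.update_of_ne hj]
      have h1 : R.filter (fun x => s x = j ∧ 0 < a x) = ∅ := by
        apply Finset.filter_eq_empty_iff.mpr
        intro x hx h
        rcases Finset.mem_insert.mp hx with rfl | hx
        · exact hj (h.1.symm.trans hsy)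
        · have := hzero x hx (by rw [h.1]; exact hj)
          linarith [h.2]
      simp [F', h1]
  have hKsum : ∑ x ∈ K, a x • x ∈ UU F c := by
    have h1 := hcls c
    have h2 : ∑ x ∈ K, a x • x = ∑ x ∈ R.filter (fun x => s x = c), a x • x := by
      apply Finset.sum_subset
      · intro x hx
        rw [hK, Finset.mem_filter] at hx
        exact Finset.mem_filter.mpr ⟨hx.1, hx.2.1⟩
      · intro x hx hx'
        rw [Finset.mem_filter] at hx
        have h3 : ¬ 0 < a x := fun h => hx' (Finset.mem_filter.mpr ⟨hx.1, hx.2, h⟩)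
        have h4 : a x = 0 := le_antisymm (not_lt.mp h3) (haR x hx.1)
        rw [h4, zero_smul]
    rw [h2]
    exact h1
  have hapos : ∀ x ∈ K, 0 < a x := fun x hx => (Finset.mem_filter.mp hx).2.2
  have hdisjK : Disjoint (F c) K := by
    rw [Finset.disjoint_left]
    intro x hx hx'
    exact (mem_pool.mp (hKP hx')).2 c hx
  have hFc : (F c).card < finrank ℝ V := hX.card_lt (hF.sub c) hc
  -- lower bound for K
  have hlow : finrank ℝ V + 1 ≤ K.card + (F c).card := by
    by_contra hcon
    push Not at hcon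
    have h1 := hX.disj_span (hF.sub c) hKX hdisjK (by omega)
    have h2 : ∑ x ∈ K, a x • x ∈ Submodule.span ℝ (K : Set V) :=
      mem_span_iff.mpr ⟨a, rfl⟩
    have h3 := Submodule.disjoint_def.mp h1 _ hKsum h2
    have h4 := coeff_zero (hX.ind K hKX (by omega)) a h3 y hyK
    rw [hay] at h4
    exact one_ne_zero h4
  -- upper bound
  have hKe : K.erase y ⊆ Q.filter (fun x => s1 x = c) := by
    intro x hx
    obtain ⟨h1, h2⟩ := Finset.mem_erase.mp hx
    rw [hK, Finset.mem_filter] at h2
    have h3 : x ∈ Q := (Finset.mem_insert.mp h2.1).resolve_left h1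
    exact Finset.mem_filter.mpr ⟨h3, by rw [← hsQ x h3]; exact h2.2.1⟩
  have hliK : LinearIndependent ℝ (fun x : {x // x ∈ K.erase y} => io (UU F) ⊤ c (x : V)) := by
    let e : {x // x ∈ K.erase y} → {x // x ∈ Q} :=
      fun x => ⟨x.1, (Finset.mem_filter.mp (hKe x.2)).1⟩
    have he : Function.Injective e := by
      intro x x' h
      apply Subtype.ext
      exact congrArg (fun t : {x // x ∈ Q} => (t : V)) h
    have h1 := hli1.comp e he
    have h2 : (fun x : {x // x ∈ Q} => io (UU F) ⊤ (s1 x) (x : V)) ∘ e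
        = fun x : {x // x ∈ K.erase y} => io (UU F) ⊤ c (x : V) := by
      funext x
      simp only [Function.comp_apply, e]
      rw [(Finset.mem_filter.mp (hKe x.2)).2]
    rwa [h2] at h1
  have hup := card_le_of_li (io (UU F) ⊤ c) (K.erase y) hliK
  rw [Finset.card_erase_of_mem hyK] at hup
  have hker : UU F c ≤ LinearMap.ker (io (UU F) ⊤ c) := by
    intro v hv
    exact io_eq_zero_of_mem hv
  have hkr := Submodule.finrank_mono hker
  have hfr : finrank ℝ (UU F c) = (F c).card := hX.finrank_span (hF.sub c) hFc.le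
  have hKpos : 0 < K.card := Finset.card_pos.mpr ⟨y, hyK⟩
  have hkereq : UU F c = LinearMap.ker (io (UU F) ⊤ c) :=
    Submodule.eq_of_le_of_finrank_le hker (by omega)
  refine ⟨K, hKP, ⟨y, hyK⟩, by omega, hFupd ▸ hSt, ⟨a, hapos, hKsum⟩, ?_⟩
  intro v hv
  rw [hkereq, LinearMap.mem_ker, io_eq_zero_iff]
  exact ⟨v, trivial, by simp, fun k hk => hv k hk⟩

end mono

end Pool.Agent.RY
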