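import Mathlib

/-!
Rado's theorem on independent transversals, linear form.
-/

set_option linter.unusedSectionVars false

namespace Pool.Agent.RY

open scoped BigOperators
open Module

section rado

variable {M : Type*} [AddCommGroup M] [Module ℝ M] [FiniteDimensional ℝ M]
  {ι C : Type*} [Fintype ι] [DecidableEq ι] [DecidableEq C]

/-- span of the allowed colours of `i` -/
def sp (u : ι → C → M) (A : ι → Finset C) (i : ι) : Submodule ℝ M :=
  Submodule.span ℝ (u i '' (A i : Set C))

omit [FiniteDimensional ℝ M] [Fintype ι] in
lemma sp_update_ne (u : ι → C → M) (A : ι → Finset C) (i : ι) (B : Finset C) (j : ι) (h : j ≠ i) :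
    sp u (Function.update A i B) j = sp u A j := by
  simp [sp, h]

omit [FiniteDimensional ℝ M] [Fintype ι] in
lemma sp_update_self (u : ι → C → M) (A : ι → Finset C) (i : ι) (B : Finset C) :
    sp u (Function.update A i B) i = Submodule.span ℝ (u i '' (B : Set C)) := by
  simp [sp]

omit [FiniteDimensional ℝ M] [Fintype ι] in
lemma sup_update (u : ι → C → M) (A : ι → Finset C) (i : ι) (B : Finset C) (T : Finset ι)
    (h : i ∉ T) : T.sup (sp u (Function.update A i B)) = T.sup (sp u A) := by
  apply Finset.sup_congr rfl
  intro j hj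
  exact sp_update_ne u A i B j (fun h1 => h (h1 ▸ hj))

lemma rado_step (u : ι → C → M) (A : ι → Finset C)
    (h : ∀ T : Finset ι, T.card ≤ finrank ℝ (T.sup (sp u A) : Submodule ℝ M))
    (i : ι) (c c' : C) (hcc : c ≠ c') :
    (∀ T : Finset ι, T.card ≤ finrank ℝ (T.sup (sp u (Function.update A i ((A i).erase c))) :
      Submodule ℝ M)) ∨
    (∀ T : Finset ι, T.card ≤ finrank ℝ (T.sup (sp u (Function.update A i ((A i).erase c'))) :
      Submodule ℝ M)) := by
  by_contra hcon
  push Not at hcon
  obtain ⟨⟨T1, h1⟩, ⟨T2, h2⟩⟩ := hcon
  have hi1 : i ∈ T1 := by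
    by_contra hi
    rw [sup_update u A i _ T1 hi] at h1
    exact absurd (h T1) (not_le.mpr h1)
  have hi2 : i ∈ T2 := by
    by_contra hi
    rw [sup_update u A i _ T2 hi] at h2
    exact absurd (h T2) (not_le.mpr h2)
  have e1 : T1.sup (sp u (Function.update A i ((A i).erase c)))
      = Submodule.span ℝ (u i '' (((A i).erase c : Finset C) : Set C))
        ⊔ (T1.erase i).sup (sp u A) := by
    rw [← Finset.insert_erase hi1, Finset.sup_insert, sp_update_self, sup_update _ _ _ _ _
      (by simp), Finset.insert_erase hi1]
  have e2 : T2.sup (sp u (Function.update A i ((A i).erase c')))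
      = Submodule.span ℝ (u i '' (((A i).erase c' : Finset C) : Set C))
        ⊔ (T2.erase i).sup (sp u A) := by
    rw [← Finset.insert_erase hi2, Finset.sup_insert, sp_update_self, sup_update _ _ _ _ _
      (by simp), Finset.insert_erase hi2]
  rw [e1] at h1
  rw [e2] at h2
  set W1 := Submodule.span ℝ (u i '' (((A i).erase c : Finset C) : Set C))
        ⊔ (T1.erase i).sup (sp u A) with hW1
  set W2 := Submodule.span ℝ (u i '' (((A i).erase c' : Finset C) : Set C))
        ⊔ (T2.erase i).sup (sp u A) with hW2
  have hsup : (T1 ∪ T2).sup (sp u A) ≤ W1 ⊔ W2 := by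
    apply Finset.sup_le
    intro j hj
    by_cases hji : j = i
    · subst hji
      apply Submodule.span_le.mpr
      rintro _ ⟨d, hd, rfl⟩
      have hd' : d ∈ A j := hd
      by_cases hdc : d = c
      · have h3 : u j d ∈ Submodule.span ℝ (u j '' (((A j).erase c' : Finset C) : Set C)) := by
          apply Submodule.subset_span
          refine ⟨d, ?_, rfl⟩
          have : d ∈ (A j).erase c' := Finset.mem_erase.mpr ⟨by rw [hdc]; exact hcc, hd'⟩
          exact this
        exact (le_sup_of_le_right (le_sup_left : _ ≤ W2)) h3
      · have h3 : u j d ∈ Submodule.span ℝ (u j '' (((A j).erase c : Finset C) : Set C)) := by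
          apply Submodule.subset_span
          refine ⟨d, ?_, rfl⟩
          have : d ∈ (A j).erase c := Finset.mem_erase.mpr ⟨hdc, hd'⟩
          exact this
        exact (le_sup_of_le_left (le_sup_left : _ ≤ W1)) h3
    · rcases Finset.mem_union.mp hj with hj | hj
      · refine le_sup_of_le_left (le_sup_of_le_right ?_)
        exact Finset.le_sup (f := sp u A) (Finset.mem_erase.mpr ⟨hji, hj⟩)
      · refine le_sup_of_le_right (le_sup_of_le_right ?_)
        exact Finset.le_sup (f := sp u A) (Finset.mem_erase.mpr ⟨hji, hj⟩)
  have hinf : ((T1 ∩ T2).erase i).sup (sp u A) ≤ W1 ⊓ W2 := by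
    apply le_inf
    · refine le_sup_of_le_right (Finset.sup_mono ?_)
      exact Finset.erase_subset_erase _ Finset.inter_subset_left
    · refine le_sup_of_le_right (Finset.sup_mono ?_)
      exact Finset.erase_subset_erase _ Finset.inter_subset_right
  have h3 := Submodule.finrank_sup_add_finrank_inf_eq W1 W2
  have h4 := (h (T1 ∪ T2)).trans (Submodule.finrank_mono hsup)
  have h5 := (h ((T1 ∩ T2).erase i)).trans (Submodule.finrank_mono hinf)
  have h6 := Finset.card_union_add_card_inter T1 T2
  have h7 : i ∈ T1 ∩ T2 := Finset.mem_inter.mpr ⟨hi1, hi2⟩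
  rw [Finset.card_erase_of_mem h7] at h5
  have h8 : 0 < (T1 ∩ T2).card := Finset.card_pos.mpr ⟨i, h7⟩
  omega

lemma rado_aux (n : ℕ) : ∀ (u : ι → C → M) (A : ι → Finset C), ∑ i, (A i).card = n →
    (∀ T : Finset ι, T.card ≤ finrank ℝ (T.sup (sp u A) : Submodule ℝ M)) →
    ∃ s : ι → C, (∀ i, s i ∈ A i) ∧ LinearIndependent ℝ (fun i => u i (s i)) := by
  induction n using Nat.strong_induction_on with
  | _ n ih =>
    intro u A hn h
    by_cases hall : ∀ i, (A i).card ≤ 1
    · have hne : ∀ i, ∃ c, c ∈ A i := by
        intro i
        by_contra hcon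
        push Not at hcon
        have h1 := h {i}
        have h2 : A i = ∅ := Finset.eq_empty_of_forall_notMem hcon
        have h3 : sp u A i = ⊥ := by simp [sp, h2]
        simp [h3] at h1
      choose s hs using hne
      refine ⟨s, hs, ?_⟩
      have hA : ∀ i, A i = {s i} := by
        intro i
        have h1 := hall i
        have h2 : (A i).card = 1 := le_antisymm h1 (Finset.card_pos.mpr ⟨s i, hs i⟩)
        obtain ⟨c, hc⟩ := Finset.card_eq_one.mp h2
        have h3 := hs i
        rw [hc] at h3 ⊢
        rw [Finset.mem_singleton.mp h3]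
      have h1 := h Finset.univ
      have h2 : (Finset.univ.sup (sp u A) : Submodule ℝ M)
          ≤ Submodule.span ℝ (Set.range (fun i => u i (s i))) := by
        apply Finset.sup_le
        intro i _
        apply Submodule.span_le.mpr
        rintro _ ⟨c, hc, rfl⟩
        have hc' : c ∈ A i := hc
        rw [hA i, Finset.mem_singleton] at hc'
        rw [hc']
        exact Submodule.subset_span ⟨i, rfl⟩
      rw [linearIndependent_iff_card_le_finrank_span]
      exact h1.trans (Submodule.finrank_mono h2)
    · push Not at hall
      obtain ⟨i, hi⟩ := hall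
      obtain ⟨c, hc, c', hc', hcc⟩ := Finset.one_lt_card.mp hi
      have hsub : ∀ d ∈ A i, ∑ j, ((Function.update A i ((A i).erase d)) j).card < n := by
        intro d hd
        rw [← hn]
        apply Finset.sum_lt_sum
        · intro j _
          by_cases hj : j = i
          · subst hj
            simp only [Function.update_self]
            exact Finset.card_erase_le
          · simp [hj]
        · refine ⟨i, Finset.mem_univ _, ?_⟩
          simp only [Function.update_self]
          exact Finset.card_erase_lt_of_mem hd
      rcases rado_step u A h i c c' hcc with h1 | h1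
      · obtain ⟨s, hs, hli⟩ := ih _ (hsub c hc) u _ rfl h1
        refine ⟨s, fun j => ?_, hli⟩
        have := hs j
        by_cases hj : j = i
        · subst hj
          simp only [Function.update_self] at this
          exact Finset.mem_of_mem_erase this
        · simpa [hj] using this
      · obtain ⟨s, hs, hli⟩ := ih _ (hsub c' hc') u _ rfl h1
        refine ⟨s, fun j => ?_, hli⟩
        have := hs j
        by_cases hj : j = i
        · subst hj
          simp only [Function.update_self] at this
          exact Finset.mem_of_mem_erase this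
        · simpa [hj] using this

/-- Rado's theorem -/
theorem rado [Fintype C] (u : ι → C → M)
    (h : ∀ T : Finset ι, T.card ≤ finrank ℝ (Submodule.span ℝ {v | ∃ i ∈ T, ∃ c, u i c = v})) :
    ∃ s : ι → C, LinearIndependent ℝ (fun i => u i (s i)) := by
  obtain ⟨s, _, hs⟩ := rado_aux _ u (fun _ => Finset.univ) rfl (by
    intro T
    refine (h T).trans (Submodule.finrank_mono ?_)
    apply Submodule.span_le.mpr
    rintro _ ⟨i, hi, c, rfl⟩
    have h1 : u i c ∈ sp u (fun _ => Finset.univ) i :=
      Submodule.subset_span ⟨c, by simp, rfl⟩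
    exact (Finset.le_sup (f := sp u (fun _ => Finset.univ)) hi) h1)
  exact ⟨s, hs⟩

end rado

end Pool.Agent.RY
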