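import Pool.Agent.Lib_helper10.RY.Cov
import Pool.Agent.Lib_helper10.RY.Rado

/-!
The quotient `(prod V / U_j) / diag H` and its coloured vectors.
-/

set_option linter.unusedSectionVars false

namespace Pool.Agent.RY

open scoped BigOperators
open Module

section quot

variable {V : Type*} [AddCommGroup V] [Module ℝ V] {r : ℕ}

/-- the diagonal -/
def dg (V : Type*) [AddCommGroup V] [Module ℝ V] (r : ℕ) : V →ₗ[ℝ] (Fin r → V) :=
  LinearMap.pi (fun _ => LinearMap.id)

@[simp] lemma dg_apply (v : V) (j : Fin r) : dg V r v j = v := rfl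

/-- `prod U_j + diag H` -/
def NN (U : Fin r → Submodule ℝ V) (H : Submodule ℝ V) : Submodule ℝ (Fin r → V) :=
  Submodule.pi Set.univ U ⊔ H.map (dg V r)

/-- the quotient -/
abbrev MM (U : Fin r → Submodule ℝ V) (H : Submodule ℝ V) := (Fin r → V) ⧸ NN U H

/-- `x` in colour `j` -/
def io (U : Fin r → Submodule ℝ V) (H : Submodule ℝ V) (j : Fin r) : V →ₗ[ℝ] MM U H :=
  (NN U H).mkQ ∘ₗ LinearMap.single ℝ (fun _ => V) j

lemma mem_NN {U : Fin r → Submodule ℝ V} {H : Submodule ℝ V} {w : Fin r → V} :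
    w ∈ NN U H ↔ ∃ h ∈ H, ∀ j, w j - h ∈ U j := by
  constructor
  · intro hw
    obtain ⟨a, ha, b, hb, rfl⟩ := Submodule.mem_sup.mp hw
    obtain ⟨h, hh, rfl⟩ := hb
    refine ⟨h, hh, fun j => ?_⟩
    have := Submodule.mem_pi.mp ha j (Set.mem_univ j)
    simpa using this
  · rintro ⟨h, hh, hj⟩
    refine Submodule.mem_sup.mpr ⟨w - dg V r h, ?_, dg V r h, ⟨h, hh, rfl⟩, by simp⟩
    rw [Submodule.mem_pi]
    intro j _
    exact hj j

lemma mk_eq_zero {U : Fin r → Submodule ℝ V} {H : Submodule ℝ V} {w : Fin r → V} :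
    (NN U H).mkQ w = 0 ↔ ∃ h ∈ H, ∀ j, w j - h ∈ U j := by
  rw [Submodule.mkQ_apply, Submodule.Quotient.mk_eq_zero, mem_NN]

lemma io_apply (U : Fin r → Submodule ℝ V) (H : Submodule ℝ V) (j : Fin r) (x : V) :
    io U H j x = (NN U H).mkQ (Pi.single j x) := rfl

lemma sum_io (U : Fin r → Submodule ℝ V) (H : Submodule ℝ V) (w : Fin r → V) :
    ∑ j, io U H j (w j) = (NN U H).mkQ w := by
  simp only [io_apply]
  rw [← map_sum]
  congr 1
  funext j
  rw [Finset.sum_apply]
  simp [Pi.single_apply]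

lemma sum_io_same (U : Fin r → Submodule ℝ V) (H : Submodule ℝ V) (x : V) :
    ∑ j, io U H j x = (NN U H).mkQ (dg V r x) := by
  rw [← sum_io]
  rfl

/-- a coloured combination, as a class of a function -/
lemma sum_col (U : Fin r → Submodule ℝ V) (H : Submodule ℝ V) (R : Finset V) (s : V → Fin r)
    (a : V → ℝ) :
    ∑ x ∈ R, a x • io U H (s x) x
      = (NN U H).mkQ (fun j => ∑ x ∈ R.filter (fun x => s x = j), a x • x) := by
  simp only [io_apply, ← map_smul]
  rw [← map_sum]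
  congr 1
  funext j
  rw [Finset.sum_apply, Finset.sum_filter]
  refine Finset.sum_congr rfl fun x _ => ?_
  by_cases h : s x = j
  · subst h; simp
  · rw [if_neg h]
    simp [Pi.single_apply, Ne.symm h]

/-- a coloured relation -/
lemma col_eq (U : Fin r → Submodule ℝ V) (H : Submodule ℝ V) (R : Finset V) (s : V → Fin r)
    (a : V → ℝ) (e : V) (h : ∑ x ∈ R, a x • io U H (s x) x = (NN U H).mkQ (dg V r e)) :
    ∃ h ∈ H, ∀ j, ∑ x ∈ R.filter (fun x => s x = j), a x • x - (e + h) ∈ U j := by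
  rw [sum_col, ← sub_eq_zero, ← map_sub, mk_eq_zero] at h
  obtain ⟨h, hh, hj⟩ := h
  refine ⟨h, hh, fun j => ?_⟩
  have := hj j
  simpa [sub_sub] using this

lemma io_eq_zero_of_mem {U : Fin r → Submodule ℝ V} {H : Submodule ℝ V} {j : Fin r} {x : V}
    (hx : x ∈ U j) : io U H j x = 0 := by
  rw [io_apply, mk_eq_zero]
  refine ⟨0, H.zero_mem, fun k => ?_⟩
  by_cases h : k = j
  · subst h; simpa using hx
  · simp [h]

lemma io_eq_zero_iff {U : Fin r → Submodule ℝ V} {H : Submodule ℝ V} {j : Fin r} {x : V} :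
    io U H j x = 0 ↔ ∃ h ∈ H, x - h ∈ U j ∧ ∀ k, k ≠ j → h ∈ U k := by
  rw [io_apply, mk_eq_zero]
  constructor
  · rintro ⟨h, hh, hj⟩
    refine ⟨h, hh, by simpa using hj j, fun k hk => ?_⟩
    have := hj k
    simp only [Pi.single_apply, hk, if_false, zero_sub] at this
    exact (Submodule.neg_mem_iff _).mp this
  · rintro ⟨h, hh, h1, h2⟩
    refine ⟨h, hh, fun k => ?_⟩
    by_cases hk : k = j
    · subst hk; simpa using h1
    · simp only [Pi.single_apply, hk, if_false, zero_sub]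
      exact (Submodule.neg_mem_iff _).mpr (h2 k hk)

variable [FiniteDimensional ℝ V]

lemma dg_injective (hr : 0 < r) : Function.Injective (dg V r) := by
  intro v w h
  have := congrFun h ⟨0, hr⟩
  simpa using this

lemma finrank_pi_sub (U : Fin r → Submodule ℝ V) :
    finrank ℝ (Submodule.pi Set.univ U : Submodule ℝ (Fin r → V)) = ∑ j, finrank ℝ (U j) := by
  have h1 := Submodule.finrank_quotient_add_finrank (Submodule.pi Set.univ U : Submodule ℝ (Fin r → V))
  have h2 := (Submodule.quotientPi U).finrank_eq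
  rw [Module.finrank_pi_fintype] at h2
  rw [h2, Module.finrank_pi_fintype] at h1
  have h3 : ∑ i : Fin r, finrank ℝ (V ⧸ U i) + ∑ j, finrank ℝ (U j) = ∑ _i : Fin r, finrank ℝ V := by
    rw [← Finset.sum_add_distrib]
    exact Finset.sum_congr rfl fun i _ => Submodule.finrank_quotient_add_finrank (U i)
  omega

lemma finrank_map_dg (hr : 0 < r) (H : Submodule ℝ V) :
    finrank ℝ (H.map (dg V r)) = finrank ℝ H :=
  (Submodule.equivMapOfInjective (dg V r) (dg_injective hr) H).finrank_eq.symm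

/-- the dimension of the quotient -/
lemma finrank_MM (hr : 0 < r) (U : Fin r → Submodule ℝ V) (H : Submodule ℝ V) :
    finrank ℝ (MM U H) + ∑ j, finrank ℝ (U j) + finrank ℝ H
      = r * finrank ℝ V + finrank ℝ (H ⊓ ⨅ j, U j : Submodule ℝ V) := by
  have h1 := Submodule.finrank_quotient_add_finrank (NN U H)
  rw [Module.finrank_pi_fintype] at h1
  have h2 := Submodule.finrank_sup_add_finrank_inf_eq
    (Submodule.pi Set.univ U : Submodule ℝ (Fin r → V)) (H.map (dg V r))
  have h3 : (Submodule.pi Set.univ U : Submodule ℝ (Fin r → V)) ⊓ H.map (dg V r)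
      = (H ⊓ ⨅ j, U j : Submodule ℝ V).map (dg V r) := by
    ext w
    simp only [Submodule.mem_inf, Submodule.mem_pi, Submodule.mem_map, Submodule.mem_iInf]
    constructor
    · rintro ⟨h4, h, hh, rfl⟩
      exact ⟨h, ⟨hh, fun j => h4 j (Set.mem_univ j)⟩, rfl⟩
    · rintro ⟨h, ⟨hh, h4⟩, rfl⟩
      exact ⟨fun j _ => h4 j, h, hh, rfl⟩
  rw [finrank_pi_sub, h3, finrank_map_dg hr, finrank_map_dg hr] at h2
  have h5 : finrank ℝ (NN U H) = finrank ℝ (Submodule.pi Set.univ U ⊔ Submodule.map (dg V r) H :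
    Submodule ℝ (Fin r → V)) := rfl
  rw [h5] at h1
  rw [Finset.sum_const, Finset.card_univ, Fintype.card_fin, smul_eq_mul] at h1
  have h6 : finrank ℝ (MM U H) = finrank ℝ ((Fin r → V) ⧸ NN U H) := rfl
  omega

/-- the colourful cone lemma in the quotient -/
theorem cov_MM (U : Fin r → Submodule ℝ V) (H : Submodule ℝ V) (Q : Finset V)
    (hcard : Q.card = finrank ℝ (MM U H)) (p : MM U H)
    (hu : ∀ x ∈ Q, ∃ m : ℝ, 0 ≤ m ∧ (NN U H).mkQ (dg V r x) = m • p) (s0 : V → Fin r)
    (h0 : LinearIndependent ℝ (fun x : {x // x ∈ Q} => io U H (s0 x) (x : V))) :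
    ∃ (s : V → Fin r) (a : V → ℝ),
      LinearIndependent ℝ (fun x : {x // x ∈ Q} => io U H (s x) (x : V)) ∧
      (∀ x ∈ Q, 0 ≤ a x) ∧ ∑ x ∈ Q, a x • io U H (s x) x = p := by
  classical
  obtain ⟨s, a, h1, h2, h3⟩ := cov (ι := {x // x ∈ Q}) (C := Fin r) (M := MM U H)
    (by rw [Fintype.card_coe]; exact hcard) (fun x c => io U H c (x : V)) p (by
      intro x
      obtain ⟨m, hm, h⟩ := hu x x.2
      exact ⟨m, hm, by rw [sum_io_same, h]⟩) (fun x => s0 x) h0
  refine ⟨fun x => if h : x ∈ Q then s ⟨x, h⟩ else s0 x,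
    fun x => if h : x ∈ Q then a ⟨x, h⟩ else 0, ?_, ?_, ?_⟩
  · have h4 : (fun x : {x // x ∈ Q} => io U H ((fun x => if h : x ∈ Q then s ⟨x, h⟩ else s0 x) (x : V))
        (x : V)) = fun x : {x // x ∈ Q} => io U H (s x) (x : V) := by
      funext x
      simp
    rw [h4]
    exact h1
  · intro x hx
    simp only [hx, dif_pos]
    exact h2 _
  · rw [← Finset.sum_coe_sort]
    simp only [Finset.coe_mem, dite_true]
    exact h3

/-- Rado's theorem in the quotient -/
theorem rado_MM (hr : 0 < r) (U : Fin r → Submodule ℝ V) (H : Submodule ℝ V) (Q : Finset V)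
    (h : ∀ T ⊆ Q, T.Nonempty → T.card ≤
      finrank ℝ (Submodule.span ℝ {v : MM U H | ∃ x ∈ T, ∃ c, io U H c x = v})) :
    ∃ s : V → Fin r, LinearIndependent ℝ (fun x : {x // x ∈ Q} => io U H (s x) (x : V)) := by
  classical
  obtain ⟨s, hs⟩ := rado (ι := {x // x ∈ Q}) (C := Fin r) (M := MM U H)
    (fun x c => io U H c (x : V)) (by
      intro T
      rcases T.eq_empty_or_nonempty with rfl | hT
      · simp
      · have h1 := h (T.map (Function.Embedding.subtype _)) (by
          intro x hx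
          obtain ⟨y, _, rfl⟩ := Finset.mem_map.mp hx
          exact y.2) (by simpa using hT)
        rw [Finset.card_map] at h1
        refine h1.trans (Submodule.finrank_mono (Submodule.span_mono ?_))
        rintro _ ⟨x, hx, c, rfl⟩
        obtain ⟨y, hy, rfl⟩ := Finset.mem_map.mp hx
        exact ⟨y, hy, c, rfl⟩)
  refine ⟨fun x => if h : x ∈ Q then s ⟨x, h⟩ else ⟨0, hr⟩, ?_⟩
  have h4 : (fun x : {x // x ∈ Q} => io U H ((fun x => if h : x ∈ Q then s ⟨x, h⟩ else ⟨0, hr⟩) (x : V))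
      (x : V)) = fun x : {x // x ∈ Q} => io U H (s x) (x : V) := by
    funext x
    simp
  rw [h4]
  exact hs

/-- a basis among a spanning coloured family -/
lemma exists_basis_sub (U : Fin r → Submodule ℝ V) (H : Submodule ℝ V) (P : Finset V)
    (s : V → Fin r) (h : Submodule.span ℝ {v : MM U H | ∃ x ∈ P, io U H (s x) x = v} = ⊤) :
    ∃ Q ⊆ P, Q.card = finrank ℝ (MM U H) ∧
      LinearIndependent ℝ (fun x : {x // x ∈ Q} => io U H (s x) (x : V)) ∧
      Submodule.span ℝ {v : MM U H | ∃ x ∈ Q, io U H (s x) x = v} = ⊤ := by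
  classical
  obtain ⟨κ, a, hinj, hsp, hli⟩ := exists_linearIndependent' ℝ
    (fun x : {x // x ∈ P} => io U H (s x) (x : V))
  have hfin : Finite κ := Finite.of_injective a hinj
  have : Fintype κ := Fintype.ofFinite κ
  have hr1 : Set.range (fun x : {x // x ∈ P} => io U H (s x) (x : V))
      = {v : MM U H | ∃ x ∈ P, io U H (s x) x = v} := by
    ext v
    simp only [Set.mem_range, Set.mem_ofPred_eq]
    constructor
    · rintro ⟨x, rfl⟩; exact ⟨x, x.2, rfl⟩
    · rintro ⟨x, hx, rfl⟩; exact ⟨⟨x, hx⟩, rfl⟩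
  have hspan : Submodule.span ℝ (Set.range ((fun x : {x // x ∈ P} => io U H (s x) (x : V)) ∘ a))
      = ⊤ := by rw [hsp, hr1, h]
  let Q : Finset V := Finset.univ.map ⟨fun k => (a k : V), fun k k' h => hinj (Subtype.ext h)⟩
  have hmem : ∀ x, x ∈ Q ↔ ∃ k, (a k : V) = x := by
    intro x
    simp [Q]
  refine ⟨Q, ?_, ?_, ?_, ?_⟩
  · intro x hx
    obtain ⟨k, rfl⟩ := (hmem x).mp hx
    exact (a k).2
  · rw [Finset.card_map, Finset.card_univ]
    exact (Module.finrank_eq_card_basis (Basis.mk hli hspan.ge)).symm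
  · let e : {x // x ∈ Q} → κ := fun x => ((hmem x.1).mp x.2).choose
    have he : ∀ x : {x // x ∈ Q}, (a (e x) : V) = x := fun x => ((hmem x.1).mp x.2).choose_spec
    have hinj' : Function.Injective e := by
      intro x y hxy
      apply Subtype.ext
      rw [← he x, ← he y, hxy]
    have h1 := hli.comp e hinj'
    have h2 : ((fun x : {x // x ∈ P} => io U H (s x) (x : V)) ∘ a) ∘ e
        = fun x : {x // x ∈ Q} => io U H (s x) (x : V) := by
      funext x
      simp only [Function.comp_apply, he]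
    rwa [h2] at h1
  · rw [← hspan]
    congr 1
    ext v
    simp only [Set.mem_ofPred_eq, Set.mem_range, Function.comp_apply]
    constructor
    · rintro ⟨x, hx, rfl⟩
      obtain ⟨k, rfl⟩ := (hmem x).mp hx
      exact ⟨k, rfl⟩
    · rintro ⟨k, rfl⟩
      exact ⟨a k, (hmem _).mpr ⟨k, rfl⟩, rfl⟩

/-- independent families of full size span -/
lemma span_of_li (U : Fin r → Submodule ℝ V) (H : Submodule ℝ V) (Q : Finset V)
    (s : V → Fin r) (hcard : Q.card = finrank ℝ (MM U H))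
    (hli : LinearIndependent ℝ (fun x : {x // x ∈ Q} => io U H (s x) (x : V))) :
    Submodule.span ℝ {v : MM U H | ∃ x ∈ Q, io U H (s x) x = v} = ⊤ := by
  have h1 := hli.span_eq_top_of_card_eq_finrank' (by rw [Fintype.card_coe]; exact hcard)
  rw [← h1]
  congr 1
  ext v
  simp only [Set.mem_range, Set.mem_ofPred_eq]
  constructor
  · rintro ⟨x, hx, rfl⟩; exact ⟨⟨x, hx⟩, rfl⟩
  · rintro ⟨x, rfl⟩; exact ⟨x, x.2, rfl⟩

/-- spanning passes to larger `U`, `H`, after dropping vectors which become zero -/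
lemma span_mono_quot {U U' : Fin r → Submodule ℝ V} {H H' : Submodule ℝ V} {Q Q' : Finset V}
    {s : V → Fin r} (hU : ∀ j, U j ≤ U' j) (hH : H ≤ H')
    (hQ : ∀ x ∈ Q, x ∈ Q' ∨ x ∈ U' (s x))
    (h : Submodule.span ℝ {v : MM U H | ∃ x ∈ Q, io U H (s x) x = v} = ⊤) :
    Submodule.span ℝ {v : MM U' H' | ∃ x ∈ Q', io U' H' (s x) x = v} = ⊤ := by
  have hle : NN U H ≤ NN U' H' := by
    intro w hw
    rw [mem_NN] at hw ⊢
    obtain ⟨h, hh, hj⟩ := hw
    exact ⟨h, hH hh, fun j => hU j (hj j)⟩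
  let f : MM U H →ₗ[ℝ] MM U' H' := (NN U H).mapQ (NN U' H') LinearMap.id hle
  have hf : Function.Surjective f := by
    intro v
    obtain ⟨w, rfl⟩ := Submodule.mkQ_surjective _ v
    exact ⟨(NN U H).mkQ w, rfl⟩
  have hio : ∀ j x, f (io U H j x) = io U' H' j x := fun j x => rfl
  rw [eq_top_iff, ← LinearMap.range_eq_top.mpr hf, LinearMap.range_eq_map, ← h,
    Submodule.map_span_le]
  rintro _ ⟨x, hx, rfl⟩
  rw [hio]
  rcases hQ x hx with h1 | h1
  · exact Submodule.subset_span ⟨x, h1, rfl⟩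
  · rw [io_eq_zero_of_mem h1]
    exact Submodule.zero_mem _

end quot

end Pool.Agent.RY
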