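import Pool.Agent.Lib_helper10.RY.Quot

/-!
States: disjoint classes with a common point, and a colouring of the rest.
-/

set_option linter.unusedSectionVars false

namespace Pool.Agent.RY

open scoped BigOperators Topology
open Module Filter

section state

variable {V : Type*} [AddCommGroup V] [Module ℝ V] [FiniteDimensional ℝ V] {r : ℕ}

/-- `z` is a combination of all the elements of `S` with positive coefficients -/
def Rel (S : Finset V) (z : V) : Prop :=
  ∃ α : V → ℝ, (∀ x ∈ S, 0 < α x) ∧ ∑ x ∈ S, α x • x = z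

/-- the spans of the classes -/
def UU (F : Fin r → Finset V) (j : Fin r) : Submodule ℝ V := Submodule.span ℝ (F j : Set V)

/-- the intersection of the spans -/
def LL (F : Fin r → Finset V) : Submodule ℝ V := ⨅ j, UU F j

open Classical in
/-- the rest -/
noncomputable def pool (X : Finset V) (F : Fin r → Finset V) : Finset V :=
  X.filter (fun x => ∀ j, x ∉ F j)

/-- a state -/
structure St (X : Finset V) (F : Fin r → Finset V) : Prop where
  sub : ∀ j, F j ⊆ X
  disj : ∀ i j, i ≠ j → Disjoint (F i) (F j)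
  pos : ∃ z, ∀ j, Rel (F j) z
  span : ∃ s : V → Fin r,
    Submodule.span ℝ {v : MM (UU F) ⊤ | ∃ x ∈ pool X F, io (UU F) ⊤ (s x) x = v} = ⊤

lemma mem_pool {X : Finset V} {F : Fin r → Finset V} {x : V} :
    x ∈ pool X F ↔ x ∈ X ∧ ∀ j, x ∉ F j := by
  classical
  simp [pool]

lemma Rel.mem_span {S : Finset V} {z : V} (h : Rel S z) :
    z ∈ Submodule.span ℝ (S : Set V) := by
  obtain ⟨α, _, rfl⟩ := h
  exact Submodule.sum_mem _ fun x hx => Submodule.smul_mem _ _ (Submodule.subset_span hx)

lemma mem_span_iff {S : Finset V} {v : V} :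
    v ∈ Submodule.span ℝ (S : Set V) ↔ ∃ b : V → ℝ, ∑ x ∈ S, b x • x = v := by
  classical
  constructor
  · intro h
    obtain ⟨b, hb⟩ := Submodule.mem_span_finset.mp h
    exact ⟨b, hb.2⟩
  · rintro ⟨b, rfl⟩
    exact Submodule.sum_mem _ fun x hx => Submodule.smul_mem _ _ (Submodule.subset_span hx)

/-- positive representations persist -/
lemma ev_rel {S : Finset V} {z v : V} (h : Rel S z) (hv : v ∈ Submodule.span ℝ (S : Set V)) :
    ∀ᶠ ε in 𝓝[>] (0:ℝ), Rel S (z + ε • v) := by
  classical
  obtain ⟨α, hα, rfl⟩ := h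
  obtain ⟨b, rfl⟩ := mem_span_iff.mp hv
  have h1 : ∀ᶠ ε in 𝓝[>] (0:ℝ), ∀ x ∈ S, 0 < α x + ε * b x := by
    rw [eventually_all_finset]
    intro x hx
    exact ev_pos _ _ (hα x hx)
  filter_upwards [h1] with ε h2
  refine ⟨fun x => α x + ε * b x, h2, ?_⟩
  simp only [add_smul, mul_smul, Finset.sum_add_distrib, Finset.smul_sum]

/-- the number of elements -/
lemma card_pool {X : Finset V} {F : Fin r → Finset V} (hsub : ∀ j, F j ⊆ X)
    (hdisj : ∀ i j, i ≠ j → Disjoint (F i) (F j)) :
    (pool X F).card + ∑ j, (F j).card = X.card := by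
  classical
  have h1 : pool X F = X \ Finset.univ.biUnion F := by
    ext x
    simp [mem_pool]
  have h2 : Finset.univ.biUnion F ⊆ X := by
    intro x hx
    obtain ⟨j, _, hj⟩ := Finset.mem_biUnion.mp hx
    exact hsub j hj
  rw [h1, ← Finset.card_biUnion (fun i _ j _ hij => hdisj i j hij)]
  exact Finset.card_sdiff_add_card_eq_card h2

/-- the general step -/
lemma advance {X : Finset V} {F : Fin r → Finset V} (hF : St X F) {R : Finset V}
    (hR : R ⊆ pool X F) (s : V → Fin r) (a : V → ℝ) (ha : ∀ x ∈ R, 0 ≤ a x) (u : V)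
    (hu : ∀ j, ∑ x ∈ R.filter (fun x => s x = j), a x • x - u ∈ UU F j)
    (hsp : Submodule.span ℝ {v : MM (UU F) ⊤ | ∃ x ∈ R, io (UU F) ⊤ (s x) x = v} = ⊤)
    (F' : Fin r → Finset V)
    (hF' : ∀ j x, x ∈ F' j ↔ x ∈ F j ∨ (x ∈ R ∧ s x = j ∧ 0 < a x)) :
    St X F' ∧ u ∈ LL F' ∧ LL F ≤ LL F' := by
  classical
  have hU : ∀ j, UU F j ≤ UU F' j := by
    intro j
    apply Submodule.span_mono
    intro x hx
    exact (hF' j x).mpr (Or.inl hx)
  have hsum : ∀ j, ∑ x ∈ R.filter (fun x => s x = j), a x • x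
      = ∑ x ∈ R.filter (fun x => s x = j ∧ 0 < a x), a x • x := by
    intro j
    symm
    apply Finset.sum_subset
    · intro x hx
      rw [Finset.mem_filter] at hx ⊢
      exact ⟨hx.1, hx.2.1⟩
    · intro x hx hx'
      rw [Finset.mem_filter] at hx hx'
      have h1 : ¬ 0 < a x := fun h => hx' ⟨hx.1, hx.2, h⟩
      have h2 : a x = 0 := le_antisymm (not_lt.mp h1) (ha x hx.1)
      rw [h2, zero_smul]
  have hsum_mem : ∀ j, ∑ x ∈ R.filter (fun x => s x = j), a x • x ∈ UU F' j := by
    intro j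
    rw [hsum j]
    refine Submodule.sum_mem _ fun x hx => Submodule.smul_mem _ _ (Submodule.subset_span ?_)
    rw [Finset.mem_filter] at hx
    exact (hF' j x).mpr (Or.inr hx)
  have hu' : ∀ j, u ∈ UU F' j := by
    intro j
    have h1 := (UU F' j).sub_mem (hsum_mem j) (hU j (hu j))
    simpa using h1
  obtain ⟨z, hz⟩ := hF.pos
  have hlin : ∀ j, ∀ᶠ ε in 𝓝[>] (0:ℝ), Rel (F' j) (z + ε • u) := by
    intro j
    have h1 : u - ∑ x ∈ R.filter (fun x => s x = j), a x • x ∈ UU F j := by
      have := (UU F j).neg_mem (hu j)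
      simpa using this
    filter_upwards [ev_rel (hz j) h1, self_mem_nhdsWithin] with ε h2 h3
    have h3' : 0 < ε := h3
    obtain ⟨α, hα, hαz⟩ := h2
    refine ⟨fun x => if x ∈ F j then α x else ε * a x, ?_, ?_⟩
    · intro x hx
      by_cases hxF : x ∈ F j
      · simp only [hxF, if_true]
        exact hα x hxF
      · simp only [hxF, if_false]
        rcases (hF' j x).mp hx with h4 | h4
        · exact absurd h4 hxF
        · exact mul_pos h3' h4.2.2
    · have h4 : F' j = F j ∪ R.filter (fun x => s x = j ∧ 0 < a x) := by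
        ext x
        rw [hF' j x, Finset.mem_union, Finset.mem_filter]
      have h5 : Disjoint (F j) (R.filter (fun x => s x = j ∧ 0 < a x)) := by
        rw [Finset.disjoint_left]
        intro x hx hx'
        rw [Finset.mem_filter] at hx'
        exact (mem_pool.mp (hR hx'.1)).2 j hx
      rw [h4, Finset.sum_union h5]
      have h6 : ∑ x ∈ F j, (if x ∈ F j then α x else ε * a x) • x = ∑ x ∈ F j, α x • x :=
        Finset.sum_congr rfl fun x hx => by rw [if_pos hx]
      have h7 : ∑ x ∈ R.filter (fun x => s x = j ∧ 0 < a x),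
          (if x ∈ F j then α x else ε * a x) • x
          = ε • ∑ x ∈ R.filter (fun x => s x = j ∧ 0 < a x), a x • x := by
        rw [Finset.smul_sum]
        refine Finset.sum_congr rfl fun x hx => ?_
        rw [if_neg (fun h => (Finset.disjoint_left.mp h5) h hx), mul_smul]
      rw [h6, h7, hαz, ← hsum j, smul_sub]
      abel
  obtain ⟨ε, hε⟩ := (eventually_all.mpr hlin).exists
  refine ⟨⟨?_, ?_, ⟨_, hε⟩, ⟨s, ?_⟩⟩, ?_, ?_⟩
  · intro j x hx
    rcases (hF' j x).mp hx with h1 | h1
    · exact hF.sub j h1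
    · exact (mem_pool.mp (hR h1.1)).1
  · intro i j hij
    rw [Finset.disjoint_left]
    intro x hx hx'
    rcases (hF' i x).mp hx with h1 | h1 <;> rcases (hF' j x).mp hx' with h2 | h2
    · exact (Finset.disjoint_left.mp (hF.disj i j hij)) h1 h2
    · exact (mem_pool.mp (hR h2.1)).2 i h1
    · exact (mem_pool.mp (hR h1.1)).2 j h2
    · exact hij (h1.2.1.symm.trans h2.2.1)
  · refine span_mono_quot hU le_rfl ?_ hsp
    intro x hx
    by_cases h1 : 0 < a x
    · right
      exact Submodule.subset_span ((hF' _ x).mpr (Or.inr ⟨hx, rfl, h1⟩))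
    · left
      rw [mem_pool]
      refine ⟨(mem_pool.mp (hR hx)).1, fun j hj => ?_⟩
      rcases (hF' j x).mp hj with h2 | h2
      · exact (mem_pool.mp (hR hx)).2 j h2
      · exact h1 h2.2.2
  · exact Submodule.mem_iInf _ |>.mpr hu'
  · exact iInf_mono hU

/-- dropping elements of the classes -/
lemma shrink {X : Finset V} {F : Fin r → Finset V} (hF : St X F) (G : Fin r → Finset V)
    (hG : ∀ j, G j ⊆ F j) (z : V) (hz : ∀ j, Rel (G j) z) : St X G := by
  classical
  obtain ⟨s, hs⟩ := hF.span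
  refine ⟨fun j => (hG j).trans (hF.sub j), fun i j hij =>
    (hF.disj i j hij).mono (hG i) (hG j), ⟨z, hz⟩, ?_⟩
  let s' : V → Fin r := fun x => if h : ∃ j, x ∈ F j then h.choose else s x
  have hs' : ∀ j x, x ∈ F j → s' x = j := by
    intro j x hx
    have h : ∃ j, x ∈ F j := ⟨j, hx⟩
    simp only [s', dif_pos h]
    by_contra hne
    exact (Finset.disjoint_left.mp (hF.disj _ j hne)) h.choose_spec hx
  refine ⟨s', ?_⟩
  set W := Submodule.span ℝ {v : MM (UU G) ⊤ | ∃ x ∈ pool X G, io (UU G) ⊤ (s' x) x = v} with hW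
  have h1 : ∀ j, ∀ v ∈ UU F j, io (UU G) ⊤ j v ∈ W := by
    intro j v hv
    obtain ⟨b, rfl⟩ := mem_span_iff.mp hv
    rw [map_sum]
    refine Submodule.sum_mem _ fun x hx => ?_
    rw [map_smul]
    apply Submodule.smul_mem
    by_cases hxG : x ∈ G j
    · rw [io_eq_zero_of_mem (Submodule.subset_span hxG)]
      exact Submodule.zero_mem _
    · apply Submodule.subset_span
      refine ⟨x, ?_, by rw [hs' j x hx]⟩
      rw [mem_pool]
      refine ⟨hF.sub j hx, fun k hk => ?_⟩
      by_cases hkj : k = j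
      · exact hxG (hkj ▸ hk)
      · exact (Finset.disjoint_left.mp (hF.disj k j hkj)) (hG k hk) hx
  rw [eq_top_iff]
  intro v _
  obtain ⟨w, rfl⟩ := Submodule.mkQ_surjective _ v
  have h2 : (NN (UU F) ⊤).mkQ w ∈ (⊤ : Submodule ℝ (MM (UU F) ⊤)) := trivial
  -- lift the spanning set
  have h3 : ∀ t ∈ Submodule.span ℝ {v : MM (UU F) ⊤ | ∃ x ∈ pool X F, io (UU F) ⊤ (s x) x = v},
      ∀ w : Fin r → V, (NN (UU F) ⊤).mkQ w = t → (NN (UU G) ⊤).mkQ w ∈ W := by
    intro t ht
    induction ht using Submodule.span_induction with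
    | mem t ht =>
      obtain ⟨x, hx, rfl⟩ := ht
      intro w hw
      rw [io_apply, ← sub_eq_zero, ← map_sub, mk_eq_zero] at hw
      obtain ⟨h, _, hj⟩ := hw
      have e1 : (NN (UU G) ⊤).mkQ w = (NN (UU G) ⊤).mkQ (w - Pi.single (s x) x - dg V r h)
          + io (UU G) ⊤ (s x) x + (NN (UU G) ⊤).mkQ (dg V r h) := by
        rw [io_apply, ← map_add, ← map_add]
        congr 1
        abel
      have e2 : (NN (UU G) ⊤).mkQ (dg V r h) = 0 := by
        rw [mk_eq_zero]
        exact ⟨h, trivial, fun j => by simp⟩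
      rw [e1, e2, add_zero]
      refine W.add_mem ?_ ?_
      · rw [← sum_io]
        refine Submodule.sum_mem _ fun j _ => h1 j _ ?_
        have := hj j
        simpa using this
      · apply Submodule.subset_span
        have hxF := (mem_pool.mp hx).2
        refine ⟨x, ?_, ?_⟩
        · rw [mem_pool]
          exact ⟨(mem_pool.mp hx).1, fun j hj => hxF j (hG j hj)⟩
        · have : s' x = s x := by
            have h : ¬ ∃ j, x ∈ F j := fun ⟨j, hj⟩ => hxF j hj
            simp only [s', dif_neg h]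
          rw [this]
    | zero =>
      intro w hw
      rw [mk_eq_zero] at hw
      obtain ⟨h, _, hj⟩ := hw
      have e1 : (NN (UU G) ⊤).mkQ w = (NN (UU G) ⊤).mkQ (w - dg V r h)
          + (NN (UU G) ⊤).mkQ (dg V r h) := by
        rw [← map_add]
        congr 1
        abel
      have e2 : (NN (UU G) ⊤).mkQ (dg V r h) = 0 := by
        rw [mk_eq_zero]
        exact ⟨h, trivial, fun j => by simp⟩
      rw [e1, e2, add_zero, ← sum_io]
      refine Submodule.sum_mem _ fun j _ => h1 j _ ?_
      have := hj j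
      simpa using this
    | add t t' _ _ ih ih' =>
      intro w hw
      obtain ⟨w', hw'⟩ := Submodule.mkQ_surjective _ t'
      have e1 : (NN (UU G) ⊤).mkQ w = (NN (UU G) ⊤).mkQ (w - w') + (NN (UU G) ⊤).mkQ w' := by
        rw [← map_add]
        congr 1
        abel
      rw [e1]
      refine W.add_mem (ih _ ?_) (ih' _ hw')
      rw [map_sub, hw, hw']
      abel
    | smul c t _ ih =>
      intro w hw
      obtain ⟨w', hw'⟩ := Submodule.mkQ_surjective _ t
      have e3 : (NN (UU G) ⊤).mkQ w = (NN (UU G) ⊤).mkQ (w - c • w')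
          + c • (NN (UU G) ⊤).mkQ w' := by
        rw [← map_smul, ← map_add]
        congr 1
        abel
      rw [e3]
      refine W.add_mem ?_ (W.smul_mem _ (ih _ hw'))
      -- the difference is in the kernel
      have e4 : (NN (UU F) ⊤).mkQ (w - c • w') = 0 := by
        rw [map_sub, map_smul, hw, hw', sub_self]
      rw [mk_eq_zero] at e4
      obtain ⟨h, _, hj⟩ := e4
      have e5 : (NN (UU G) ⊤).mkQ (w - c • w') = (NN (UU G) ⊤).mkQ (w - c • w' - dg V r h)
          + (NN (UU G) ⊤).mkQ (dg V r h) := by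
        rw [← map_add]
        congr 1
        abel
      have e6 : (NN (UU G) ⊤).mkQ (dg V r h) = 0 := by
        rw [mk_eq_zero]
        exact ⟨h, trivial, fun j => by simp⟩
      rw [e5, e6, add_zero, ← sum_io]
      refine Submodule.sum_mem _ fun j _ => h1 j _ ?_
      have := hj j
      simpa using this
  refine h3 _ ?_ w rfl
  rw [hs]
  trivial

end state

end Pool.Agent.RY
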