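import Pool.Agent.Lib_helper10.RY.Half

/-!
The exchange of a monochromatic circuit with a tie set; thinning of classes.
-/

set_option linter.unusedSectionVars false

namespace Pool.Agent.RY

open scoped BigOperators Topology
open Module Filter

section tie

variable {V : Type*} [AddCommGroup V] [Module ℝ V] [FiniteDimensional ℝ V] {r : ℕ}

lemma exists_coord {S : Finset V} (h : LinearIndependent ℝ (fun x : {x // x ∈ S} => (x : V))) :
    ∃ al : V → Dual ℝ V, ∀ (β : V → ℝ), ∀ x ∈ S, al x (∑ y ∈ S, β y • y) = β x := by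
  classical
  let f := Fintype.linearCombination ℝ (fun x : {x // x ∈ S} => (x : V))
  have hf : Function.Injective f := by
    rw [← LinearMap.ker_eq_bot, LinearMap.ker_eq_bot']
    intro g hg
    funext x
    exact Fintype.linearIndependent_iff.mp h g hg x
  obtain ⟨g, hg⟩ := LinearMap.exists_leftInverse_of_injective f (LinearMap.ker_eq_bot.mpr hf)
  refine ⟨fun x => if h : x ∈ S then (LinearMap.proj ⟨x, h⟩) ∘ₗ g else 0, fun β x hx => ?_⟩
  have h1 : f (fun x : {x // x ∈ S} => β x) = ∑ y ∈ S, β y • y := by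
    change ∑ x : {x // x ∈ S}, β x • (x : V) = _
    exact Finset.sum_coe_sort S (fun y => β y • y)
  simp only [hx, dif_pos, LinearMap.comp_apply]
  rw [← h1]
  have h2 : g (f (fun x : {x // x ∈ S} => β x)) = (fun x : {x // x ∈ S} => β x) := by
    have := congrArg (fun t : ({x // x ∈ S} → ℝ) →ₗ[ℝ] ({x // x ∈ S} → ℝ) =>
      t (fun x : {x // x ∈ S} => β x)) hg
    exact this
  rw [h2]
  rfl

open Classical in
/-- the tie exchange -/
theorem tie {X : Finset V} (hX : Gen X) {F : Fin r → Finset V} (hF : St X F)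
    (c : Fin r) (hc : UU F c ≠ ⊤) (he : finrank ℝ (MM (UU F) ⊤) < (pool X F).card)
    (hmax : ∀ F' : Fin r → Finset V, St X F' → finrank ℝ (LL F') ≤ finrank ℝ (LL F)) :
    ∃ (K T : Finset V) (b : V → ℝ), K ⊆ pool X F ∧ K.card + (F c).card = finrank ℝ V + 1 ∧
      (∀ x ∈ K, 0 < b x) ∧ T ⊆ F c ∧ T.Nonempty ∧
      St X (Function.update F c (K ∪ (F c \ T))) ∧
      LL F ≤ LL (Function.update F c (K ∪ (F c \ T))) ∧
      finrank ℝ (LL F) ≤
        finrank ℝ (LL F ⊓ Submodule.span ℝ ((F c \ T : Finset V) : Set V) : Submodule ℝ V) + 1 ∧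
      (T = F c → ∑ x ∈ K, b x • x ∈ LL F) := by
  obtain ⟨K, hKP, hKne, hKcard, hSt', ⟨b, hb, hbs⟩, _⟩ := mono_step hX hF c hc he hmax
  have hKX : K ⊆ X := fun x hx => (mem_pool.mp (hKP hx)).1
  have hFc : (F c).card < finrank ℝ V := hX.card_lt (hF.sub c) hc
  have hli := hX.ind (F c) (hF.sub c) hFc.le
  have hdisjK : Disjoint K (F c) := by
    rw [Finset.disjoint_left]
    intro x hx hx'
    exact (mem_pool.mp (hKP hx)).2 c hx'
  obtain ⟨al, hal⟩ := exists_coord hli
  set eK := ∑ x ∈ K, b x • x with heK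
  obtain ⟨β, hβ⟩ := mem_span_iff.mp hbs
  have hrep : ∀ v ∈ UU F c, v = ∑ x ∈ F c, al x v • x := by
    intro v hv
    obtain ⟨g, rfl⟩ := mem_span_iff.mp hv
    exact Finset.sum_congr rfl fun x hx => by rw [hal g x hx]
  obtain ⟨l, hl⟩ := hX.acyc
  -- some beta is positive
  obtain ⟨y0, hy0, hy0'⟩ : ∃ x ∈ F c, 0 < β x := by
    by_contra hcon
    push Not at hcon
    have h1 : l eK ≤ 0 := by
      rw [← hβ, map_sum]
      apply Finset.sum_nonpos
      intro x hx
      rw [map_smul, smul_eq_mul]
      exact mul_nonpos_of_nonpos_of_nonneg (hcon x hx) (hl x (hF.sub c hx)).le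
    have h2 : 0 < l eK := by
      rw [heK, map_sum]
      apply Finset.sum_pos _ hKne
      intro x hx
      rw [map_smul, smul_eq_mul]
      exact mul_pos (hb x hx) (hl x (hKX hx))
    linarith
  -- generic direction
  let gg : V → V → Dual ℝ V := fun x x' => β x' • al x - β x • al x'
  let I := {t : {x // x ∈ F c} × {x // x ∈ F c} // ∃ v ∈ LL F, gg t.1 t.2 v ≠ 0}
  obtain ⟨v, hvL, hv⟩ := Dual.exists_forall_mem_ne_zero_of_forall_exists (LL F)
    (fun t : I => gg t.1.1 t.1.2) (fun t => t.2)
  obtain ⟨z0, hz0⟩ := hF.pos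
  have hvj : ∀ j, v ∈ UU F j := fun j => (Submodule.mem_iInf _).mp hvL j
  have hev1 : ∀ᶠ ε in 𝓝[>] (0:ℝ), ∀ j, Rel (F j) (z0 + ε • v) :=
    eventually_all.mpr fun j => ev_rel (hz0 j) (hvj j)
  have hev2 : ∀ᶠ ε in 𝓝[>] (0:ℝ), ∀ t : I, z0 + ε • v ∉ LinearMap.ker (gg t.1.1 t.1.2) :=
    eventually_all.mpr fun t => ev_notMem _ _ _ (fun h => hv t h)
  obtain ⟨ε, hε1, hε2⟩ := (hev1.and hev2).exists
  set z := z0 + ε • v with hz
  have hgen : ∀ x ∈ F c, ∀ x' ∈ F c, β x' * al x z = β x * al x' z →
      ∀ w ∈ LL F, β x' * al x w = β x * al x' w := by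
    intro x hx x' hx' h w hw
    by_contra hcon
    have h1 : gg x x' w ≠ 0 := by
      intro h2
      apply hcon
      have : β x' * al x w - β x * al x' w = 0 := h2
      linarith
    apply hε2 ⟨(⟨x, hx⟩, ⟨x', hx'⟩), ⟨w, hw, h1⟩⟩
    rw [LinearMap.mem_ker]
    change β x' * al x z - β x * al x' z = 0
    linarith
  have hzL : z ∈ LL F := (Submodule.mem_iInf _).mpr fun j => (hε1 j).mem_span
  have hzpos : ∀ x ∈ F c, 0 < al x z := by
    obtain ⟨α, hα, hαz⟩ := hε1 c
    intro x hx
    rw [← hαz, hal α x hx]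
    exact hα x hx
  have hzc : z ∈ UU F c := (hε1 c).mem_span
  -- the tie set
  obtain ⟨x0, hx0, hmin⟩ := Finset.exists_min_image ((F c).filter (fun x => 0 < β x))
    (fun x => al x z / β x) ⟨y0, Finset.mem_filter.mpr ⟨hy0, hy0'⟩⟩
  obtain ⟨hx0F, hx0β⟩ := Finset.mem_filter.mp hx0
  set s := al x0 z / β x0 with hs
  have hspos : 0 < s := div_pos (hzpos x0 hx0F) hx0β
  set T := (F c).filter (fun x => 0 < β x ∧ al x z = s * β x) with hT
  have hTF : T ⊆ F c := Finset.filter_subset _ _
  have hx0T : x0 ∈ T := by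
    rw [hT, Finset.mem_filter]
    refine ⟨hx0F, hx0β, ?_⟩
    rw [hs]
    field_simp
  have hpos : ∀ x ∈ F c \ T, 0 < al x z - s * β x := by
    intro x hx
    obtain ⟨h1, h2⟩ := Finset.mem_sdiff.mp hx
    by_cases h3 : 0 < β x
    · have h4 := hmin x (Finset.mem_filter.mpr ⟨h1, h3⟩)
      have h5 : s * β x ≤ al x z := by
        rwa [le_div_iff₀ h3] at h4
      rcases eq_or_lt_of_le h5 with h6 | h6
      · exact absurd (Finset.mem_filter.mpr ⟨h1, h3, h6.symm⟩) h2
      · linarith
    · have h4 : s * β x ≤ 0 := mul_nonpos_of_nonneg_of_nonpos hspos.le (not_lt.mp h3)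
      linarith [hzpos x h1]
  have hdis2 : Disjoint K (F c \ T) := hdisjK.mono_right Finset.sdiff_subset
  have hrelc : Rel (K ∪ (F c \ T)) z := by
    refine ⟨fun x => if x ∈ K then s * b x else al x z - s * β x, ?_, ?_⟩
    · intro x hx
      by_cases h1 : x ∈ K
      · simp only [h1, if_true]
        exact mul_pos hspos (hb x h1)
      · simp only [h1, if_false]
        exact hpos x ((Finset.mem_union.mp hx).resolve_left h1)
    · rw [Finset.sum_union hdis2]
      have e1 : ∑ x ∈ K, (if x ∈ K then s * b x else al x z - s * β x) • x = s • eK := by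
        rw [heK, Finset.smul_sum]
        exact Finset.sum_congr rfl fun x hx => by rw [if_pos hx, mul_smul]
      have e2 : ∑ x ∈ F c \ T, (if x ∈ K then s * b x else al x z - s * β x) • x
          = ∑ x ∈ F c, (al x z - s * β x) • x := by
        have e3 : ∑ x ∈ F c \ T, (if x ∈ K then s * b x else al x z - s * β x) • x
            = ∑ x ∈ F c \ T, (al x z - s * β x) • x :=
          Finset.sum_congr rfl fun x hx => by
            rw [if_neg (fun h => (Finset.disjoint_left.mp hdis2) h hx)]
        rw [e3]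
        apply Finset.sum_subset Finset.sdiff_subset
        intro x hx hx'
        have h1 : x ∈ T := by
          by_contra h2
          exact hx' (Finset.mem_sdiff.mpr ⟨hx, h2⟩)
        rw [hT, Finset.mem_filter] at h1
        rw [h1.2.2, sub_self, zero_smul]
      rw [e1, e2]
      simp only [sub_smul, mul_smul, Finset.sum_sub_distrib]
      rw [← hrep z hzc, ← Finset.smul_sum, hβ]
      abel
  have hG : ∀ j, Function.update F c (K ∪ (F c \ T)) j
      ⊆ Function.update F c (F c ∪ K) j := by
    intro j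
    by_cases hj : j = c
    · subst hj
      simp only [Function.update_self]
      intro x hx
      rcases Finset.mem_union.mp hx with h1 | h1
      · exact Finset.mem_union_right _ h1
      · exact Finset.mem_union_left _ (Finset.mem_sdiff.mp h1).1
    · simp [hj]
  have hSt'' : St X (Function.update F c (K ∪ (F c \ T))) := by
    refine shrink hSt' _ hG z fun j => ?_
    by_cases hj : j = c
    · subst hj
      simpa using hrelc
    · simpa [hj] using hε1 j
  refine ⟨K, T, b, hKP, hKcard, hb, hTF, ⟨x0, hx0T⟩, hSt'', ?_, ?_, ?_⟩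
  · intro w hw
    have hwj : ∀ j, w ∈ UU F j := fun j => (Submodule.mem_iInf _).mp hw j
    rw [LL, Submodule.mem_iInf]
    intro j
    by_cases hj : j = c
    · subst hj
      change w ∈ Submodule.span ℝ ((Function.update F j (K ∪ (F j \ T)) j : Finset V) : Set V)
      rw [Function.update_self]
      have h1 : ∀ x ∈ T, al x w = (al x0 w / β x0) * β x := by
        intro x hx
        have hx1 := (Finset.mem_filter.mp hx)
        have h2 := hgen x hx1.1 x0 hx0F (by
          rw [hx1.2.2]
          have : al x0 z = s * β x0 := (Finset.mem_filter.mp hx0T).2.2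
          rw [this]
          ring) w hw
        field_simp
        linarith
      set θ := al x0 w / β x0 with hθ
      have h2 : w = ∑ x ∈ F j \ T, al x w • x + θ • (eK - ∑ x ∈ F j \ T, β x • x) := by
        have e1 : ∑ x ∈ F j \ T, al x w • x + ∑ x ∈ T, al x w • x = ∑ x ∈ F j, al x w • x :=
          Finset.sum_sdiff hTF
        have e2 : ∑ x ∈ F j \ T, β x • x + ∑ x ∈ T, β x • x = ∑ x ∈ F j, β x • x :=
          Finset.sum_sdiff hTF
        have e3 : ∑ x ∈ T, al x w • x = θ • ∑ x ∈ T, β x • x := by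
          rw [Finset.smul_sum]
          exact Finset.sum_congr rfl fun x hx => by rw [h1 x hx, mul_smul]
        have e4 : eK - ∑ x ∈ F j \ T, β x • x = ∑ x ∈ T, β x • x := by
          rw [← hβ, ← e2]; abel
        rw [e4, ← e3, e1]
        exact hrep w (hwj j)
      rw [h2]
      have hm : ∀ x ∈ F j \ T, x ∈ Submodule.span ℝ ((K ∪ (F j \ T) : Finset V) : Set V) :=
        fun x hx => Submodule.subset_span (Finset.mem_union_right _ hx)
      refine Submodule.add_mem _ (Submodule.sum_mem _ fun x hx => Submodule.smul_mem _ _ (hm x hx))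
        (Submodule.smul_mem _ _ (Submodule.sub_mem _ ?_ (Submodule.sum_mem _ fun x hx =>
          Submodule.smul_mem _ _ (hm x hx))))
      rw [heK]
      exact Submodule.sum_mem _ fun x hx => Submodule.smul_mem _ _
        (Submodule.subset_span (Finset.mem_union_left _ hx))
    · change w ∈ Submodule.span ℝ ((Function.update F c (K ∪ (F c \ T)) j : Finset V) : Set V)
      rw [Function.update_of_ne hj]
      exact hwj j
  · have hne : al x0 ≠ 0 := by
      intro h
      have := hzpos x0 hx0F
      rw [h] at this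
      simp at this
    have h1 := Dual.finrank_ker_add_one_of_ne_zero hne
    have h2 := Submodule.finrank_sup_add_finrank_inf_eq (LL F) (LinearMap.ker (al x0))
    have h3 := Submodule.finrank_le (LL F ⊔ LinearMap.ker (al x0))
    have h4 : (LL F ⊓ LinearMap.ker (al x0) : Submodule ℝ V)
        ≤ LL F ⊓ Submodule.span ℝ ((F c \ T : Finset V) : Set V) := by
      rintro w ⟨hw, hw0⟩
      refine ⟨hw, ?_⟩
      have hw0' : al x0 w = 0 := hw0
      have hwc : w ∈ UU F c := (Submodule.mem_iInf _).mp hw c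
      rw [hrep w hwc]
      have h5 : ∑ x ∈ F c, al x w • x = ∑ x ∈ F c \ T, al x w • x := by
        symm
        apply Finset.sum_subset Finset.sdiff_subset
        intro x hx hx'
        have h1 : x ∈ T := by
          by_contra h2
          exact hx' (Finset.mem_sdiff.mpr ⟨hx, h2⟩)
        have hx1 := (Finset.mem_filter.mp h1)
        have h2 := hgen x hx1.1 x0 hx0F (by
          rw [hx1.2.2]
          have : al x0 z = s * β x0 := (Finset.mem_filter.mp hx0T).2.2
          rw [this]
          ring) w hw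
        rw [hw0', mul_zero] at h2
        rw [(mul_eq_zero.mp h2).resolve_left hx0β.ne', zero_smul]
      rw [h5]
      exact Submodule.sum_mem _ fun x hx => Submodule.smul_mem _ _ (Submodule.subset_span hx)
    have h5 := Submodule.finrank_mono h4
    omega
  · intro hTeq
    have h1 : z = s • eK := by
      rw [hrep z hzc, ← hβ, Finset.smul_sum]
      refine Finset.sum_congr rfl fun x hx => ?_
      have : x ∈ T := by rw [hTeq]; exact hx
      rw [(Finset.mem_filter.mp this).2.2, mul_smul]
    have h2 : eK = s⁻¹ • z := by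
      rw [h1, smul_smul, inv_mul_cancel₀ hspos.ne', one_smul]
    rw [← heK, h2]
    exact Submodule.smul_mem _ _ hzL

/-- Caratheodory for cones -/
lemma carath (n : ℕ) : ∀ (S : Finset V) (z : V), S.card = n → Rel S z →
    ∃ B ⊆ S, LinearIndependent ℝ (fun x : {x // x ∈ B} => (x : V)) ∧ Rel B z := by
  classical
  induction n using Nat.strong_induction_on with
  | _ n ih =>
    intro S z hn hS
    by_cases hli : LinearIndependent ℝ (fun x : {x // x ∈ S} => (x : V))
    · exact ⟨S, Finset.Subset.refl _, hli, hS⟩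
    · rw [Fintype.linearIndependent_iff] at hli
      push Not at hli
      obtain ⟨g, hg, i, hi⟩ := hli
      -- a relation with a positive coefficient
      obtain ⟨γ, hγ, y, hy, hyγ⟩ : ∃ γ : V → ℝ, ∑ x ∈ S, γ x • x = 0 ∧ ∃ y ∈ S, 0 < γ y := by
        have h1 : ∑ x ∈ S, (if h : x ∈ S then g ⟨x, h⟩ else 0) • x = 0 := by
          rw [← hg, ← Finset.sum_coe_sort S]
          exact Finset.sum_congr rfl fun x _ => by simp
        rcases lt_or_gt_of_ne hi with h2 | h2
        · refine ⟨fun x => -(if h : x ∈ S then g ⟨x, h⟩ else 0), ?_, i, i.2, ?_⟩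
          · simp only [neg_smul, Finset.sum_neg_distrib, h1, neg_zero]
          · simp only [i.2, dif_pos]
            linarith
        · refine ⟨fun x => (if h : x ∈ S then g ⟨x, h⟩ else 0), h1, i, i.2, ?_⟩
          simp only [i.2, dif_pos]
          exact h2
      obtain ⟨α, hα, hz⟩ := hS
      obtain ⟨x0, hx0, hmin⟩ := Finset.exists_min_image (S.filter (fun x => 0 < γ x))
        (fun x => α x / γ x) ⟨y, Finset.mem_filter.mpr ⟨hy, hyγ⟩⟩
      obtain ⟨hx0S, hx0γ⟩ := Finset.mem_filter.mp hx0
      set s := α x0 / γ x0 with hs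
      have hspos : 0 < s := div_pos (hα x0 hx0S) hx0γ
      have hnn : ∀ x ∈ S, 0 ≤ α x - s * γ x := by
        intro x hx
        by_cases h3 : 0 < γ x
        · have h4 := hmin x (Finset.mem_filter.mpr ⟨hx, h3⟩)
          have h5 : s * γ x ≤ α x := by rwa [le_div_iff₀ h3] at h4
          linarith
        · have h4 : s * γ x ≤ 0 := mul_nonpos_of_nonneg_of_nonpos hspos.le (not_lt.mp h3)
          linarith [hα x hx]
      have hx0z : α x0 - s * γ x0 = 0 := by
        rw [hs]; field_simp; ring
      set S' := S.filter (fun x => 0 < α x - s * γ x) with hS'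
      have hsub : S' ⊆ S := Finset.filter_subset _ _
      have hlt : S'.card < n := by
        rw [← hn]
        apply Finset.card_lt_card
        refine ⟨hsub, fun h => ?_⟩
        have h1 := (Finset.mem_filter.mp (h hx0S)).2
        rw [hx0z] at h1
        exact lt_irrefl _ h1
      have hrel : Rel S' z := by
        refine ⟨fun x => α x - s * γ x, fun x hx => (Finset.mem_filter.mp hx).2, ?_⟩
        have e1 : ∑ x ∈ S', (α x - s * γ x) • x = ∑ x ∈ S, (α x - s * γ x) • x := by
          apply Finset.sum_subset hsub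
          intro x hx hx'
          have h1 : ¬ 0 < α x - s * γ x := fun h => hx' (Finset.mem_filter.mpr ⟨hx, h⟩)
          rw [le_antisymm (not_lt.mp h1) (hnn x hx), zero_smul]
        rw [e1]
        simp only [sub_smul, mul_smul, Finset.sum_sub_distrib]
        rw [← Finset.smul_sum, hγ, smul_zero, sub_zero, hz]
      obtain ⟨B, hB, hBli, hBr⟩ := ih _ hlt S' z rfl hrel
      exact ⟨B, hB.trans hsub, hBli, hBr⟩

/-- thinning -/
theorem thin {X : Finset V} {F : Fin r → Finset V} (hF : St X F) :
    ∃ G : Fin r → Finset V, St X G ∧ LL G = LL F ∧ ∀ j, (G j).card ≤ finrank ℝ V := by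
  classical
  obtain ⟨z0, hz0⟩ := hF.pos
  -- avoid all small spans
  let I := {t : (j : Fin r) × {B // B ∈ (F j).powerset} //
    ¬ (LL F ≤ Submodule.span ℝ ((t.2.1 : Finset V) : Set V))}
  obtain ⟨v, hv⟩ := Submodule.exists_forall_notMem_of_forall_ne_top
    (fun t : I => (Submodule.span ℝ ((t.1.2.1 : Finset V) : Set V)).comap (LL F).subtype) (by
      intro t h
      apply t.2
      intro w hw
      have : (⟨w, hw⟩ : LL F) ∈ (⊤ : Submodule ℝ (LL F)) := trivial
      rw [← h] at this
      exact this)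
  have hvj : ∀ j, (v : V) ∈ UU F j := fun j => (Submodule.mem_iInf _).mp v.2 j
  have hev1 : ∀ᶠ ε in 𝓝[>] (0:ℝ), ∀ j, Rel (F j) (z0 + ε • (v : V)) :=
    eventually_all.mpr fun j => ev_rel (hz0 j) (hvj j)
  have hev2 : ∀ᶠ ε in 𝓝[>] (0:ℝ), ∀ t : I,
      z0 + ε • (v : V) ∉ Submodule.span ℝ ((t.1.2.1 : Finset V) : Set V) :=
    eventually_all.mpr fun t => ev_notMem _ _ _ (fun h => hv t h)
  obtain ⟨ε, hε1, hε2⟩ := (hev1.and hev2).exists
  have h1 : ∀ j, ∃ B ⊆ F j, LinearIndependent ℝ (fun x : {x // x ∈ B} => (x : V)) ∧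
      Rel B (z0 + ε • (v : V)) := fun j => carath _ (F j) _ rfl (hε1 j)
  choose G hG hGli hGr using h1
  refine ⟨G, shrink hF G hG _ hGr, ?_, ?_⟩
  · apply le_antisymm
    · exact iInf_mono fun j => Submodule.span_mono (by exact_mod_cast hG j)
    · apply le_iInf
      intro j
      by_contra hcon
      exact hε2 ⟨⟨j, ⟨G j, Finset.mem_powerset.mpr (hG j)⟩⟩, hcon⟩ (hGr j).mem_span
  · intro j
    have := (hGli j).fintype_card_le_finrank
    rwa [Fintype.card_coe] at this

end tie

end Pool.Agent.RY
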